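import Mathlib

/-!
MP_aa96c4_al, project RK: polynomial sequences in filtered groups (Lazard, Leibman) and the
Hall-Petrescu formula.

`F : ℕ → Subgroup G` is an antitone family with `⁅F i, F j⁆ ≤ F (i + j)`.  A sequence `g : ℕ → G`
is polynomial of level `i` if its `k`-th difference has values in `F (i + k)` for all `k`.
-/

namespace Pool.Agent.Helper46.RK

open Subgroup
open scoped commutatorElement

variable {G : Type*} [Group G]

/-- A filtration (N-series) of `G`, starting with any subgroup `F 0`. -/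
structure NSer (F : ℕ → Subgroup G) : Prop where
  anti : Antitone F
  comm : ∀ i j, ⁅F i, F j⁆ ≤ F (i + j)

/-- the difference of a sequence. -/
def dif (g : ℕ → G) : ℕ → G := fun n => g (n + 1) * (g n)⁻¹

/-- polynomial sequences of level `i`. -/
def Po (F : ℕ → Subgroup G) (i : ℕ) (g : ℕ → G) : Prop :=
  ∀ k n, (dif^[k] g) n ∈ F (i + k)

theorem Po.val {F : ℕ → Subgroup G} {i : ℕ} {g : ℕ → G} (h : Po F i g) (n : ℕ) : g n ∈ F i :=
  h 0 n

theorem Po.dif {F : ℕ → Subgroup G} {i : ℕ} {g : ℕ → G} (h : Po F i g) : Po F (i + 1) (dif g) := by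
  intro k n
  have := h (k + 1) n
  rw [Function.iterate_succ_apply] at this
  rwa [add_assoc, add_comm 1 k]

theorem Po.of {F : ℕ → Subgroup G} {i : ℕ} {g : ℕ → G} (h : ∀ n, g n ∈ F i)
    (h' : Po F (i + 1) (RK.dif g)) : Po F i g := by
  intro k n
  cases k with
  | zero => exact h n
  | succ k =>
    rw [Function.iterate_succ_apply]
    have := h' k n
    rwa [add_assoc, add_comm 1 k] at this

/-- the smallest N-series of sequences that contains the polynomial sequences. -/
inductive Cl (F : ℕ → Subgroup G) : ℕ → (ℕ → G) → Prop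
  | base {i : ℕ} {g : ℕ → G} : Po F i g → Cl F i g
  | one (i : ℕ) : Cl F i 1
  | mul {i : ℕ} {g h : ℕ → G} : Cl F i g → Cl F i h → Cl F i (g * h)
  | inv {i : ℕ} {g : ℕ → G} : Cl F i g → Cl F i g⁻¹
  | anti {i : ℕ} {g : ℕ → G} : Cl F (i + 1) g → Cl F i g
  | comm {i j : ℕ} {g h : ℕ → G} : Cl F i g → Cl F j h → Cl F (i + j) ⁅g, h⁆

theorem Cl.le {F : ℕ → Subgroup G} {i j : ℕ} {g : ℕ → G} (h : Cl F i g) (hij : j ≤ i) :
    Cl F j g := by
  induction i with
  | zero =>
    have : j = 0 := by omega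
    rwa [this]
  | succ i ih =>
    rcases Nat.lt_or_ge j (i + 1) with h1 | h1
    · exact ih h.anti (by omega)
    · have : j = i + 1 := by omega
      rwa [this]

theorem Cl.conj {F : ℕ → Subgroup G} {i : ℕ} {g h : ℕ → G} (hg : Cl F 0 g) (hh : Cl F i h) :
    Cl F i (g * h * g⁻¹) := by
  have h1 : Cl F (0 + i) ⁅g, h⁆ := Cl.comm hg hh
  rw [zero_add] at h1
  have h2 : g * h * g⁻¹ = ⁅g, h⁆ * h := by
    rw [commutatorElement_def]
    group
  rw [h2]
  exact h1.mul hh

theorem Cl.val {F : ℕ → Subgroup G} (hF : NSer F) {i : ℕ} {g : ℕ → G} (h : Cl F i g) :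
    ∀ n, g n ∈ F i := by
  induction h with
  | base h => exact h.val
  | one i => exact fun n => one_mem _
  | mul _ _ h1 h2 => exact fun n => mul_mem (h1 n) (h2 n)
  | inv _ h => exact fun n => inv_mem (h n)
  | anti _ h => exact fun n => hF.anti (Nat.le_succ _) (h n)
  | comm _ _ h1 h2 =>
    intro n
    exact hF.comm _ _ (Subgroup.commutator_mem_commutator (h1 n) (h2 n))

theorem Cl.dif {F : ℕ → Subgroup G} {i : ℕ} {g : ℕ → G} (h : Cl F i g) :
    Cl F (i + 1) (RK.dif g) := by
  induction h with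
  | base h => exact Cl.base h.dif
  | one i =>
    have : RK.dif (1 : ℕ → G) = 1 := by
      ext n
      simp [RK.dif]
    rw [this]
    exact Cl.one _
  | @mul i g h hg hh ih1 ih2 =>
    have : RK.dif (g * h) = RK.dif g * (g * RK.dif h * g⁻¹) := by
      ext n
      simp only [RK.dif, Pi.mul_apply, Pi.inv_apply]
      group
    rw [this]
    exact ih1.mul (Cl.conj (hg.le (Nat.zero_le _)) ih2)
  | @inv i g hg ih =>
    have : RK.dif (g⁻¹) = g⁻¹ * (RK.dif g)⁻¹ * (g⁻¹)⁻¹ := by
      ext n
      simp only [RK.dif, Pi.mul_apply, Pi.inv_apply]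
      group
    rw [this]
    exact Cl.conj (hg.le (Nat.zero_le _)).inv ih.inv
  | anti _ ih => exact ih.anti
  | @comm i j g h hg hh ih1 ih2 =>
    set a := RK.dif g with ha
    set b := RK.dif h with hb
    have hw : Cl F (i + j) ⁅g, h⁆ := Cl.comm hg hh
    have e : RK.dif ⁅g, h⁆ = (a * ⁅g, b⁆ * a⁻¹) * ⁅a * b, ⁅g, h⁆⁆ *
        (⁅g, h⁆ * (⁅a, b⁆ * (b * ⁅a, h⁆ * b⁻¹)) * ⁅g, h⁆⁻¹) := by
      ext n
      simp only [ha, hb, RK.dif, Pi.mul_apply, Pi.inv_apply, commutatorElement_def]
      group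
    rw [e]
    have a0 : Cl F 0 a := ih1.le (Nat.zero_le _)
    have b0 : Cl F 0 b := ih2.le (Nat.zero_le _)
    have t1 : Cl F (i + j + 1) (a * ⁅g, b⁆ * a⁻¹) := by
      refine Cl.conj a0 ?_
      have := Cl.comm hg ih2
      rwa [← add_assoc] at this
    have t2 : Cl F (i + j + 1) ⁅a * b, ⁅g, h⁆⁆ := by
      have h1 : Cl F 1 (a * b) := (ih1.le (by omega)).mul (ih2.le (by omega))
      have := Cl.comm h1 hw
      rwa [add_comm 1 (i + j)] at this
    have t3 : Cl F (i + j + 1) (⁅g, h⁆ * (⁅a, b⁆ * (b * ⁅a, h⁆ * b⁻¹)) * ⁅g, h⁆⁻¹) := by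
      refine Cl.conj (hw.le (Nat.zero_le _)) (Cl.mul ?_ (Cl.conj b0 ?_))
      · exact (Cl.comm ih1 ih2).le (by omega)
      · exact (Cl.comm ih1 hh).le (by omega)
    exact (t1.mul t2).mul t3

theorem Cl.po {F : ℕ → Subgroup G} (hF : NSer F) {i : ℕ} {g : ℕ → G} (h : Cl F i g) :
    Po F i g := by
  intro k
  induction k generalizing i g with
  | zero => exact h.val hF
  | succ k ih =>
    intro n
    rw [Function.iterate_succ_apply]
    have := ih h.dif n
    rwa [add_assoc, add_comm 1 k] at this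

/-- The polynomial sequences of level `i` form a group. -/
def Poly {F : ℕ → Subgroup G} (hF : NSer F) (i : ℕ) : Subgroup (ℕ → G) where
  carrier := {g | Po F i g}
  one_mem' := (Cl.one i).po hF
  mul_mem' := fun ha hb => ((Cl.base ha).mul (Cl.base hb)).po hF
  inv_mem' := fun ha => (Cl.base ha).inv.po hF

theorem mem_Poly {F : ℕ → Subgroup G} (hF : NSer F) {i : ℕ} {g : ℕ → G} :
    g ∈ Poly hF i ↔ Po F i g := Iff.rfl

/-- The groups of polynomial sequences form an N-series (Lazard, Leibman). -/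
theorem Poly_nser {F : ℕ → Subgroup G} (hF : NSer F) : NSer (Poly hF) where
  anti := antitone_nat_of_succ_le fun i g hg => (Cl.base hg).anti.po hF
  comm := fun i j => by
    rw [Subgroup.commutator_le]
    exact fun g hg h hh => (Cl.comm (Cl.base hg) (Cl.base hh)).po hF

/-- constant sequences. -/
theorem Po_const {F : ℕ → Subgroup G} (hF : NSer F) {i : ℕ} {c : G} (hc : c ∈ F i) :
    Po F i (fun _ => c) := by
  refine Po.of (fun _ => hc) ?_
  have : dif (fun _ : ℕ => c) = 1 := by
    ext n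
    simp [dif]
  rw [this]
  exact (Cl.one _).po hF

/-- binomial sequences. -/
theorem Po_choose {F : ℕ → Subgroup G} (hF : NSer F) {c : G} (k : ℕ) {i : ℕ}
    (hc : c ∈ F (i + k)) : Po F i (fun n => c ^ (n.choose k)) := by
  induction k generalizing i with
  | zero =>
    have : (fun n : ℕ => c ^ (n.choose 0)) = fun _ => c := by
      ext n
      simp
    rw [this]
    exact Po_const hF hc
  | succ k ih =>
    refine Po.of (fun n => pow_mem (hF.anti (by omega) hc) _) ?_
    have : dif (fun n : ℕ => c ^ (n.choose (k + 1))) = fun n => c ^ (n.choose k) := by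
      ext n
      simp only [dif]
      rw [Nat.choose_succ_succ' n k, pow_add, mul_inv_cancel_right]
    rw [this]
    apply ih
    rwa [show i + 1 + k = i + (k + 1) by omega]

theorem Po_pow {F : ℕ → Subgroup G} (hF : NSer F) {x : G} {i : ℕ} (hx : x ∈ F (i + 1)) :
    Po F i (fun n => x ^ n) := by
  have := Po_choose hF 1 hx
  simpa using this

/-- a polynomial sequence of level `i` with `k` initial values `1` has values in `F (i + k)`. -/
theorem Po.vanish {F : ℕ → Subgroup G} {k i : ℕ} {g : ℕ → G} (h : Po F i g)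
    (hk : ∀ j, j < k → g j = 1) : ∀ n, g n ∈ F (i + k) := by
  induction k generalizing i g with
  | zero => exact h.val
  | succ k ih =>
    have h1 : ∀ n, RK.dif g n ∈ F (i + 1 + k) := by
      refine ih h.dif fun j hj => ?_
      simp [RK.dif, hk j (by omega), hk (j + 1) (by omega)]
    intro n
    induction n with
    | zero =>
      rw [hk 0 (by omega)]
      exact one_mem _
    | succ n ihn =>
      have h2 : g (n + 1) = RK.dif g n * g n := by
        simp [RK.dif]
      rw [h2]
      refine mul_mem ?_ ihn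
      have := h1 n
      rwa [show i + 1 + k = i + (k + 1) by omega] at this

/-- the remainders of the Taylor expansion. -/
def tay (g : ℕ → G) : ℕ → (ℕ → G)
  | 0 => g
  | l + 1 => fun n => ((tay g l l) ^ (n.choose l))⁻¹ * tay g l n

/-- the Taylor coefficients. -/
def coef (g : ℕ → G) (l : ℕ) : G := tay g l l

theorem tay_succ (g : ℕ → G) (l n : ℕ) :
    tay g (l + 1) n = ((coef g l) ^ (n.choose l))⁻¹ * tay g l n := rfl

theorem tay_zero_of_lt (g : ℕ → G) (l : ℕ) : ∀ n, n < l → tay g l n = 1 := by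
  induction l with
  | zero => intro n hn; omega
  | succ l ih =>
    intro n hn
    rw [tay_succ]
    rcases Nat.lt_succ_iff_lt_or_eq.mp hn with h | h
    · rw [Nat.choose_eq_zero_of_lt h, pow_zero, inv_one, one_mul]
      exact ih n h
    · rw [h, Nat.choose_self, pow_one]
      exact inv_mul_cancel _

theorem tay_po {F : ℕ → Subgroup G} (hF : NSer F) {i : ℕ} {g : ℕ → G} (h : Po F i g) (l : ℕ) :
    Po F i (tay g l) ∧ coef g l ∈ F (i + l) := by
  induction l with
  | zero => exact ⟨h, h.val 0⟩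
  | succ l ih =>
    have h1 : Po F i (tay g (l + 1)) := by
      have h2 : tay g (l + 1) = (fun n => (coef g l) ^ (n.choose l))⁻¹ * tay g l := by
        ext n
        rw [tay_succ]
        rfl
      rw [h2]
      exact (Poly hF i).mul_mem ((Poly hF i).inv_mem (Po_choose hF l ih.2)) ih.1
    exact ⟨h1, h1.vanish (tay_zero_of_lt g (l + 1)) _⟩

theorem tay_prod (g : ℕ → G) (L n : ℕ) :
    g n = ((List.range L).map fun l => (coef g l) ^ (n.choose l)).prod * tay g L n := by
  induction L with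
  | zero => simp [tay]
  | succ L ih =>
    rw [List.range_succ, List.map_append, List.prod_append, List.map_singleton,
      List.prod_singleton, tay_succ]
    rw [ih]
    group

/-- **Taylor expansion**: `g n = ∏_{l < L} c_l ^ (n choose l)` for `n < L`, and for all `n` if
`F (i + L)` is trivial. -/
theorem taylor {F : ℕ → Subgroup G} (hF : NSer F) {i : ℕ} {g : ℕ → G} (h : Po F i g) :
    (∀ l, coef g l ∈ F (i + l)) ∧
      ∀ L n, n < L ∨ F (i + L) = ⊥ →
        g n = ((List.range L).map fun l => (coef g l) ^ (n.choose l)).prod := by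
  refine ⟨fun l => (tay_po hF h l).2, fun L n hL => ?_⟩
  have h1 : tay g L n = 1 := by
    rcases hL with hL | hL
    · exact tay_zero_of_lt g L n hL
    · have := (tay_po hF h L).1.vanish (tay_zero_of_lt g L) n
      rwa [hL, Subgroup.mem_bot] at this
  have h2 := tay_prod g L n
  rwa [h1, mul_one] at h2

/-- uniqueness of the Taylor coefficients. -/
theorem coef_unique {g : ℕ → G} {c : ℕ → G}
    (h : ∀ n, g n = ((List.range (n + 1)).map fun l => (c l) ^ (n.choose l)).prod) :
    ∀ l, coef g l = c l := by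
  intro l
  induction l using Nat.strong_induction_on with
  | _ l ih =>
    have h1 := tay_prod g l l
    have h2 := h l
    rw [List.range_succ, List.map_append, List.prod_append, List.map_singleton,
      List.prod_singleton, Nat.choose_self, pow_one] at h2
    have h3 : ((List.range l).map fun j => (coef g j) ^ (l.choose j)) =
        ((List.range l).map fun j => (c j) ^ (l.choose j)) := by
      apply List.map_congr_left
      intro j hj
      rw [ih j (List.mem_range.mp hj)]
    rw [h3, h2] at h1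
    exact (mul_left_cancel h1).symm

/-- **Hall-Petrescu**: for `x, y ∈ F 1` there are `c l ∈ F l`, `l ≥ 2`, independent of `n`, with
`(x y) ^ n = x ^ n y ^ n ∏_{2 ≤ l < L} c_l ^ (n choose l)` for all `n < L`, and for all `n` if
`F L` is trivial. -/
theorem hall_petrescu {F : ℕ → Subgroup G} (hF : NSer F) {x y : G} (hx : x ∈ F 1) (hy : y ∈ F 1) :
    ∃ c : ℕ → G, (∀ l, c l ∈ F l) ∧ c 0 = 1 ∧ c 1 = 1 ∧
      ∀ L n, n < L ∨ F L = ⊥ →
        (x * y) ^ n = x ^ n * y ^ n * ((List.range L).map fun l => (c l) ^ (n.choose l)).prod := by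
  set g : ℕ → G := (fun n => y ^ n)⁻¹ * ((fun n => x ^ n)⁻¹ * fun n => (x * y) ^ n) with hg
  have hgn : ∀ n, g n = (y ^ n)⁻¹ * ((x ^ n)⁻¹ * (x * y) ^ n) := fun n => rfl
  have hP : Po F 0 g := by
    have hx' : x ∈ F (0 + 1) := by rwa [zero_add]
    have hy' : y ∈ F (0 + 1) := by rwa [zero_add]
    refine (Poly hF 0).mul_mem ((Poly hF 0).inv_mem (Po_pow hF hy'))
      ((Poly hF 0).mul_mem ((Poly hF 0).inv_mem (Po_pow hF hx')) (Po_pow hF (mul_mem hx' hy')))
  obtain ⟨h1, h2⟩ := taylor hF hP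
  have c0 : coef g 0 = 1 := by
    change g 0 = 1
    rw [hgn]
    simp
  have c1 : coef g 1 = 1 := by
    change tay g 1 1 = 1
    rw [tay_succ, c0, one_pow, inv_one, one_mul]
    change g 1 = 1
    rw [hgn]
    simp
  refine ⟨coef g, fun l => by simpa using h1 l, c0, c1, fun L n hL => ?_⟩
  rw [← h2 L n (by simpa using hL), hgn]
  group

/-- **Commutator with a power**: for `x ∈ F i`, `y ∈ F 1` there are `c l ∈ F (i + l)` with
`c 0 = 1`, `c 1 = ⁅x, y⁆` and `⁅x, y ^ n⁆ = ∏_{l < L} c_l ^ (n choose l)`. -/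
theorem comm_pow {F : ℕ → Subgroup G} (hF : NSer F) {i : ℕ} {x y : G} (hx : x ∈ F i)
    (hy : y ∈ F 1) :
    ∃ c : ℕ → G, (∀ l, c l ∈ F (i + l)) ∧ c 0 = 1 ∧ c 1 = ⁅x, y⁆ ∧
      ∀ L n, n < L ∨ F (i + L) = ⊥ →
        ⁅x, y ^ n⁆ = ((List.range L).map fun l => (c l) ^ (n.choose l)).prod := by
  set g : ℕ → G := ⁅(fun _ => x : ℕ → G), (fun n => y ^ n : ℕ → G)⁆ with hg
  have hgn : ∀ n, g n = ⁅x, y ^ n⁆ := fun n => rfl
  have hP : Po F i g := by
    have hy' : y ∈ F (0 + 1) := by rwa [zero_add]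
    have := (Poly_nser hF).comm i 0 (Subgroup.commutator_mem_commutator
      (Po_const hF hx : (fun _ => x : ℕ → G) ∈ Poly hF i)
      (Po_pow hF hy' : (fun n => y ^ n : ℕ → G) ∈ Poly hF 0))
    exact this
  obtain ⟨h1, h2⟩ := taylor hF hP
  have c0 : coef g 0 = 1 := by
    change g 0 = 1
    rw [hgn]
    simp
  have c1 : coef g 1 = ⁅x, y⁆ := by
    change tay g 1 1 = _
    rw [tay_succ, c0, one_pow, inv_one, one_mul]
    change g 1 = _
    rw [hgn, pow_one]
  exact ⟨coef g, h1, c0, c1, fun L n hL => (hgn n) ▸ h2 L n hL⟩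

end Pool.Agent.Helper46.RK
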