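import Mathlib

/-!
MP_aa96c4_al, project RK: Laffey's theorem for all primes.

Every finite `p`-group `P` has a subgroup `E` of class at most two and of exponent dividing `p ^ 3`
whose order is at least the index of `P' P ^ (p ^ 2)`.
-/

namespace Pool.Agent.Helper46.RK

open Subgroup
open scoped commutatorElement

section Defs

variable {G : Type*} [Group G]

theorem relIndex_ne [Finite G] (H K : Subgroup G) : H.relIndex K ≠ 0 :=
  Subgroup.index_ne_zero_of_finite

theorem card_mul_rel {H K : Subgroup G} (h : H ≤ K) :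
    Nat.card H * H.relIndex K = Nat.card K := by
  have := Subgroup.relIndex_mul_relIndex ⊥ H K bot_le h
  rwa [Subgroup.relIndex_bot_left, Subgroup.relIndex_bot_left] at this

/-- `Qd q K = K' K ^ q`. -/
def Qd (q : ℕ) (K : Subgroup G) : Subgroup G :=
  ⁅K, K⁆ ⊔ Subgroup.closure ((fun x : G => x ^ q) '' (K : Set G))

theorem Qd_le (q : ℕ) (K : Subgroup G) : Qd q K ≤ K := by
  refine sup_le (Subgroup.commutator_le_self K) ?_
  rw [Subgroup.closure_le]
  rintro _ ⟨x, hx, rfl⟩
  exact pow_mem hx q

theorem comm_le_Qd (q : ℕ) (K : Subgroup G) : ⁅K, K⁆ ≤ Qd q K := le_sup_left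

theorem pow_mem_Qd (q : ℕ) {K : Subgroup G} {x : G} (hx : x ∈ K) : x ^ q ∈ Qd q K :=
  (le_sup_right : _ ≤ Qd q K) (Subgroup.subset_closure ⟨x, hx, rfl⟩)

theorem Qd_le_iff {q : ℕ} {K N : Subgroup G} :
    Qd q K ≤ N ↔ ⁅K, K⁆ ≤ N ∧ ∀ x ∈ K, x ^ q ∈ N := by
  unfold Qd
  rw [sup_le_iff, Subgroup.closure_le]
  constructor
  · rintro ⟨h1, h2⟩
    exact ⟨h1, fun x hx => h2 ⟨x, hx, rfl⟩⟩
  · rintro ⟨h1, h2⟩
    refine ⟨h1, ?_⟩
    rintro _ ⟨x, hx, rfl⟩
    exact h2 x hx

theorem Qd_mono (q : ℕ) {K L : Subgroup G} (h : K ≤ L) : Qd q K ≤ Qd q L := by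
  rw [Qd_le_iff]
  exact ⟨(Subgroup.commutator_mono h h).trans (comm_le_Qd q L), fun x hx => pow_mem_Qd q (h hx)⟩

theorem Qd_map {G' : Type*} [Group G'] (q : ℕ) (K : Subgroup G) (f : G →* G') :
    (Qd q K).map f = Qd q (K.map f) := by
  unfold Qd
  rw [Subgroup.map_sup, Subgroup.map_commutator, MonoidHom.map_closure]
  congr 2
  ext y
  constructor
  · rintro ⟨_, ⟨x, hx, rfl⟩, rfl⟩
    exact ⟨f x, ⟨x, hx, rfl⟩, by simp⟩
  · rintro ⟨_, ⟨x, hx, rfl⟩, rfl⟩
    exact ⟨x ^ q, ⟨x, hx, rfl⟩, by simp⟩

instance Qd_top_normal (q : ℕ) : (Qd q (⊤ : Subgroup G)).Normal := by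
  constructor
  intro n hn g
  have h : (Qd q (⊤ : Subgroup G)).map (MulAut.conj g).toMonoidHom = Qd q (⊤ : Subgroup G) := by
    rw [Qd_map]
    congr 1
    exact Subgroup.map_top_of_surjective _ (MulAut.conj g).surjective
  rw [← h]
  exact ⟨n, hn, by simp [MulAut.conj_apply]⟩

/-- every proper subgroup has a smaller value of `μ`. -/
def Mini (q : ℕ) (G : Type*) [Group G] : Prop :=
  ∀ K : Subgroup G, K ≠ ⊤ → (Qd q K).relIndex K < (Qd q (⊤ : Subgroup G)).index

theorem Mini.quot {q : ℕ} [Finite G] (h : Mini q G) (N : Subgroup G) [N.Normal]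
    (hN : N ≤ Qd q ⊤) : Mini q (G ⧸ N) := by
  intro K' hK'
  have hsurj := QuotientGroup.mk'_surjective N
  set K := K'.comap (QuotientGroup.mk' N) with hK
  have hKmap : K.map (QuotientGroup.mk' N) = K' := Subgroup.map_comap_eq_self_of_surjective hsurj K'
  have hKtop : K ≠ ⊤ := by
    intro h'
    apply hK'
    rw [← hKmap, h']
    exact Subgroup.map_top_of_surjective _ hsurj
  have h1 := h K hKtop
  have h2 : (Qd q K').relIndex K' ≤ (Qd q K).relIndex K := by
    rw [← hKmap, ← Qd_map, Subgroup.relIndex_map_map]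
    have hker : (QuotientGroup.mk' N).ker ≤ K := by
      rw [hK]
      exact Subgroup.ker_le_comap _ _
    rw [sup_eq_left.mpr hker]
    exact Subgroup.relIndex_le_of_le_left le_sup_left (relIndex_ne _ _)
  have h3 : (Qd q (⊤ : Subgroup (G ⧸ N))).index = (Qd q (⊤ : Subgroup G)).index := by
    have : Qd q (⊤ : Subgroup (G ⧸ N)) = (Qd q (⊤ : Subgroup G)).map (QuotientGroup.mk' N) := by
      rw [Qd_map, Subgroup.map_top_of_surjective _ hsurj]
    rw [this]
    apply Subgroup.index_map_eq _ hsurj
    rw [QuotientGroup.ker_mk']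
    exact hN
  omega

end Defs

section Count

variable {G : Type*} [Group G]

/-- the centraliser of one element all of whose commutators lie in a central subgroup `N`. -/
theorem index_centralizer_le [Finite G] (N : Subgroup G) (hN : N ≤ center G) (f : G)
    (hf : ∀ g : G, ⁅g, f⁆ ∈ N) : (centralizer ({f} : Set G)).index ≤ Nat.card N := by
  let φ : G →* N :=
    { toFun := fun g => ⟨⁅g, f⁆, hf g⟩
      map_one' := by
        ext
        simp
      map_mul' := fun a b => by
        ext
        have hb := Subgroup.mem_center_iff.mp (hN (hf b)) a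
        change ⁅a * b, f⁆ = ⁅a, f⁆ * ⁅b, f⁆
        have h1 : ⁅a * b, f⁆ = a * ⁅b, f⁆ * a⁻¹ * ⁅a, f⁆ := by
          simp only [commutatorElement_def]
          group
        have hc := Subgroup.mem_center_iff.mp (hN (hf b)) ⁅a, f⁆
        rw [h1, hb, hc]
        group }
  have hker : φ.ker ≤ centralizer ({f} : Set G) := by
    intro g hg
    rw [Subgroup.mem_centralizer_singleton_iff]
    have : ⁅g, f⁆ = 1 := by
      have h2 : φ g = 1 := hg
      exact congrArg Subtype.val h2
    rw [commutatorElement_eq_one_iff_mul_comm] at this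
    exact this
  calc (centralizer ({f} : Set G)).index ≤ φ.ker.index := by
        refine Nat.le_of_dvd (Nat.pos_of_ne_zero Subgroup.index_ne_zero_of_finite) ?_
        exact Subgroup.index_dvd_of_le hker
    _ = Nat.card φ.range := Subgroup.index_ker φ
    _ ≤ Nat.card N := Subgroup.card_le_card_group _

theorem card_mul_le_of_lt {p : ℕ} [Fact p.Prime] [Finite G] (hG : IsPGroup p G)
    {K L : Subgroup G} (h : K < L) : p * Nat.card K ≤ Nat.card L := by
  have h1 : K.relIndex L ∣ Nat.card L := by
    rw [← card_mul_rel h.le]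
    exact Dvd.intro_left _ rfl
  obtain ⟨n, hn⟩ := (IsPGroup.iff_card (p := p) (G := L)).mp (hG.to_subgroup L)
  rw [hn] at h1
  obtain ⟨k, -, hk⟩ := (Nat.dvd_prime_pow (Fact.out : p.Prime)).mp h1
  have hk0 : k ≠ 0 := by
    rintro rfl
    rw [pow_zero, Subgroup.relIndex_eq_one] at hk
    exact absurd hk (not_le_of_gt h)
  have h2 : p ≤ K.relIndex L := by
    rw [hk]
    calc p = p ^ 1 := (pow_one p).symm
      _ ≤ p ^ k := Nat.pow_le_pow_right (Fact.out : p.Prime).pos (Nat.one_le_iff_ne_zero.mpr hk0)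
  calc p * Nat.card K ≤ K.relIndex L * Nat.card K := Nat.mul_le_mul_right _ h2
    _ = Nat.card L := by rw [mul_comm, card_mul_rel h.le]

/-- `[G : C(Q)] ≤ [Q : Q ∩ Z(G)]` when `[Q, G]` is central of order `p`. -/
theorem index_centralizer_le_relIndex {p : ℕ} [Fact p.Prime] [Finite G] (hG : IsPGroup p G)
    (Q N : Subgroup G) (hN : N ≤ center G) (hcard : Nat.card N = p)
    (hQ : ∀ f ∈ Q, ∀ g : G, ⁅g, f⁆ ∈ N) :
    (centralizer (Q : Set G)).index * Nat.card (Q ⊓ center G : Subgroup G) ≤ Nat.card Q := by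
  classical
  let S : Set (Subgroup G) := {K | Q ⊓ center G ≤ K ∧ K ≤ Q ∧
    (centralizer (K : Set G)).index * Nat.card (Q ⊓ center G : Subgroup G) ≤ Nat.card K}
  have hne : (Q ⊓ center G) ∈ S := by
    refine ⟨le_rfl, inf_le_left, ?_⟩
    have : centralizer ((Q ⊓ center G : Subgroup G) : Set G) = ⊤ := by
      rw [Subgroup.centralizer_eq_top_iff_subset]
      intro x hx
      exact hx.2
    rw [this, Subgroup.index_top, one_mul]
  obtain ⟨K, hK⟩ := (Set.toFinite S).exists_maximal ⟨_, hne⟩
  obtain ⟨⟨hK1, hK2, hK3⟩, hmax⟩ := hK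
  rcases eq_or_lt_of_le hK2 with h | h
  · rw [← h]
    rw [← h] at hK3
    exact hK3
  · exfalso
    obtain ⟨f, hfQ, hfK⟩ := SetLike.exists_of_lt h
    set L := K ⊔ zpowers f with hL
    have hKL : K < L := by
      refine lt_of_le_of_ne le_sup_left ?_
      intro h'
      apply hfK
      rw [h']
      exact (le_sup_right : zpowers f ≤ L) (mem_zpowers f)
    have hLS : L ∈ S := by
      refine ⟨hK1.trans hKL.le, sup_le hK2 ?_, ?_⟩
      · rw [Subgroup.zpowers_le]
        exact hfQ
      · have h1 : centralizer (K : Set G) ⊓ centralizer ({f} : Set G) ≤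
            centralizer (L : Set G) := by
          intro g hg
          rw [← Subgroup.mem_carrier] 
          have hle : L ≤ centralizer ({g} : Set G) := by
            refine sup_le ?_ ?_
            · intro k hk
              rw [Subgroup.mem_centralizer_singleton_iff]
              have := Subgroup.mem_centralizer_iff.mp hg.1 k hk
              exact this
            · rw [Subgroup.zpowers_le, Subgroup.mem_centralizer_singleton_iff]
              have := Subgroup.mem_centralizer_singleton_iff.mp hg.2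
              exact this.symm
          rw [Subgroup.mem_carrier, Subgroup.mem_centralizer_iff]
          intro k hk
          exact Subgroup.mem_centralizer_singleton_iff.mp (hle hk)
        have h2 : (centralizer (L : Set G)).index ≤
            (centralizer (K : Set G)).index * p := by
          calc (centralizer (L : Set G)).index
              ≤ (centralizer (K : Set G) ⊓ centralizer ({f} : Set G)).index :=
                Nat.le_of_dvd (Nat.pos_of_ne_zero Subgroup.index_ne_zero_of_finite)
                  (Subgroup.index_dvd_of_le h1)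
            _ ≤ (centralizer (K : Set G)).index * (centralizer ({f} : Set G)).index :=
                Subgroup.index_inf_le
            _ ≤ (centralizer (K : Set G)).index * p := by
                refine Nat.mul_le_mul_left _ ?_
                rw [← hcard]
                exact index_centralizer_le N hN f (hQ f hfQ)
        calc (centralizer (L : Set G)).index * Nat.card (Q ⊓ center G : Subgroup G)
            ≤ (centralizer (K : Set G)).index * p * Nat.card (Q ⊓ center G : Subgroup G) :=
              Nat.mul_le_mul_right _ h2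
          _ = p * ((centralizer (K : Set G)).index * Nat.card (Q ⊓ center G : Subgroup G)) := by
              ring
          _ ≤ p * Nat.card K := Nat.mul_le_mul_left _ hK3
          _ ≤ Nat.card L := card_mul_le_of_lt hG hKL
    exact absurd (hmax hLS hKL.le) (not_le_of_gt hKL)

end Count

section Comp

variable {G : Type*} [Group G]

/-- conjugation by powers of `w`. -/
theorem conj_pow_formula {a w u z : G} (h1 : w * a * w⁻¹ = a * u) (h2 : w * u * w⁻¹ = u * z)
    (hz : z ∈ center G) (n : ℕ) : w ^ n * a * (w ^ n)⁻¹ = a * u ^ n * z ^ (n.choose 2) := by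
  have hzc : ∀ g : G, g * z = z * g := fun g => Subgroup.mem_center_iff.mp hz g
  induction n with
  | zero => simp
  | succ n ih =>
    have e1 : w ^ (n + 1) * a * (w ^ (n + 1))⁻¹ = w * (w ^ n * a * (w ^ n)⁻¹) * w⁻¹ := by
      rw [pow_succ']
      group
    have e2 : w * (a * u ^ n * z ^ (n.choose 2)) * w⁻¹ =
        (w * a * w⁻¹) * (w * u * w⁻¹) ^ n * (w * z * w⁻¹) ^ (n.choose 2) := by
      rw [conj_pow, conj_pow]
      group
    have e3 : w * z * w⁻¹ = z := by
      rw [hzc w]
      group
    have hcomm : Commute u z := hzc u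
    have e4 : (n + 1).choose 2 = n + n.choose 2 := by
      rw [Nat.choose_succ_succ' n 1, Nat.choose_one_right]
    rw [e1, ih, e2, h1, h2, e3, hcomm.mul_pow, e4, pow_add z, pow_succ' u]
    group

/-- the key computation: `a ^ q` is central for `a` in the centraliser of `Q = G' G ^ q`. -/
theorem pow_central {p q : ℕ} (hq : p ∣ q.choose 2) {N : Subgroup G} (hN : N ≤ center G)
    (hNp : ∀ z ∈ N, z ^ p = 1) (hQN : ∀ f ∈ Qd q (⊤ : Subgroup G), ∀ g : G, ⁅g, f⁆ ∈ N)
    {a : G} (ha : a ∈ centralizer (Qd q (⊤ : Subgroup G) : Set G)) : a ^ q ∈ center G := by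
  rw [Subgroup.mem_center_iff]
  intro w
  have hcomm : ∀ f ∈ Qd q (⊤ : Subgroup G), f * a = a * f := fun f hf =>
    Subgroup.mem_centralizer_iff.mp ha f hf
  set u := a⁻¹ * (w * a * w⁻¹) with hu
  have huQ : u ∈ Qd q (⊤ : Subgroup G) := by
    apply comm_le_Qd
    have : u = ⁅a⁻¹, w⁆ := by
      rw [commutatorElement_def, hu]
      group
    rw [this]
    exact Subgroup.commutator_mem_commutator (Subgroup.mem_top _) (Subgroup.mem_top _)
  set z := u⁻¹ * (w * u * w⁻¹) with hz
  have hzN : z ∈ N := by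
    have h1 : ⁅w, u⁆ ∈ N := hQN u huQ w
    have h2 : z = ⁅w, u⁆ := by
      have h3 := Subgroup.mem_center_iff.mp (hN h1) u⁻¹
      have h4 : z = u⁻¹ * ⁅w, u⁆ * u := by
        rw [commutatorElement_def, hz]
        group
      rw [h4, h3]
      group
    rw [h2]
    exact h1
  have e1 : w * a * w⁻¹ = a * u := by
    rw [hu]
    group
  have e2 : w * u * w⁻¹ = u * z := by
    rw [hz]
    group
  have hzq : z ^ (q.choose 2) = 1 := by
    obtain ⟨k, hk⟩ := hq
    rw [hk, pow_mul, hNp z hzN, one_pow]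
  have hform := conj_pow_formula e1 e2 (hN hzN) q
  rw [hzq, mul_one] at hform
  have hwq : w ^ q * a * (w ^ q)⁻¹ = a := by
    rw [hcomm (w ^ q) (pow_mem_Qd q (Subgroup.mem_top w))]
    group
  have huq : u ^ q = 1 := by
    rw [hwq] at hform
    exact (mul_eq_left.mp hform.symm)
  have hau : Commute a u := (hcomm u huQ).symm
  have h5 : w * a ^ q * w⁻¹ = a ^ q := by
    rw [← conj_pow, e1, hau.mul_pow, huq, mul_one]
  calc w * a ^ q = (w * a ^ q * w⁻¹) * w := by group
    _ = a ^ q * w := by rw [h5]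

end Comp

section Main

theorem exists_central_order_p {p : ℕ} [hp : Fact p.Prime] {G : Type*} [Group G] [Finite G]
    (hG : IsPGroup p G) (R : Subgroup G) [R.Normal] (hR : R ≠ ⊥) :
    ∃ z ∈ R, z ∈ center G ∧ orderOf z = p := by
  have hnt : Nontrivial R := (Subgroup.nontrivial_iff_ne_bot R).mpr hR
  have hdvd : p ∣ Nat.card R := by
    obtain ⟨n, hn0, hn⟩ := ((hG.to_subgroup R).nontrivial_iff_card).mp hnt
    rw [hn]
    exact dvd_pow_self p (by omega)
  have hGc : IsPGroup p (ConjAct G) := hG.of_equiv ConjAct.toConjAct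
  obtain ⟨b, hb, hb1⟩ := hGc.exists_fixed_point_of_prime_dvd_card_of_fixed_point R hdvd
    (a := 1) (fun g => by simp)
  have hbc : (b : G) ∈ center G := by
    rw [Subgroup.mem_center_iff]
    intro g
    have h1 := hb (ConjAct.toConjAct g)
    have h2 : ((ConjAct.toConjAct g • b : R) : G) = g * b * g⁻¹ := by
      rw [ConjAct.Subgroup.val_conj_smul, ConjAct.smul_def]
      simp
    have h3 : g * (b : G) * g⁻¹ = b := by
      rw [← h2, h1]
    calc g * (b : G) = (g * (b : G) * g⁻¹) * g := by group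
      _ = b * g := by rw [h3]
  have hbne : (b : G) ≠ 1 := by
    intro h
    apply hb1
    ext
    exact h.symm
  have hpd := hG.dvd_orderOf hbne
  have ho : orderOf (b : G) ≠ 0 := (orderOf_pos (b : G)).ne'
  refine ⟨(b : G) ^ (orderOf (b : G) / p), R.pow_mem b.2 _, (center G).pow_mem hbc _, ?_⟩
  rw [orderOf_pow_of_dvd _ (Nat.div_dvd_of_dvd hpd), Nat.div_div_self hpd ho]
  exact (Nat.div_pos (Nat.le_of_dvd (orderOf_pos _) hpd) hp.out.pos).ne'

/-- Laffey's step: a `μ`-minimal group has central `Q = G' G ^ q`. -/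
theorem center_of_min {p q : ℕ} [hp : Fact p.Prime] (hq : p ∣ q.choose 2) :
    ∀ (n : ℕ) (G : Type*) [Group G] [Finite G], Nat.card G = n → IsPGroup p G → Mini q G →
      Qd q (⊤ : Subgroup G) ≤ center G := by
  intro n
  induction n using Nat.strong_induction_on with
  | _ n ih =>
    intro G _ _ hn hG hmin
    by_contra hnot
    set Q := Qd q (⊤ : Subgroup G) with hQ
    set R : Subgroup G := ⁅(⊤ : Subgroup G), Q⁆ with hR
    have hRne : R ≠ ⊥ := by
      intro h
      apply hnot
      intro f hf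
      rw [Subgroup.mem_center_iff]
      intro g
      have : ⁅g, f⁆ ∈ R := Subgroup.commutator_mem_commutator (Subgroup.mem_top g) hf
      rw [h, Subgroup.mem_bot, commutatorElement_eq_one_iff_mul_comm] at this
      exact this
    have hRQ : R ≤ Q := Subgroup.commutator_le_right _ _
    obtain ⟨z, hzR, hzc, hzo⟩ := exists_central_order_p hG R hRne
    set N := zpowers z with hN
    have hNc : N ≤ center G := by
      rw [hN, Subgroup.zpowers_le]
      exact hzc
    have hNcard : Nat.card N = p := by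
      rw [hN, Nat.card_zpowers, hzo]
    have hNnorm : N.Normal := by
      constructor
      intro m hm g
      have := Subgroup.mem_center_iff.mp (hNc hm) g
      have h2 : g * m * g⁻¹ = m := by
        rw [this]
        group
      rw [h2]
      exact hm
    have hNQ : N ≤ Q := by
      rw [hN, Subgroup.zpowers_le]
      exact hRQ hzR
    have hlt : Nat.card (G ⧸ N) < n := by
      have h1 := Subgroup.card_eq_card_quotient_mul_card_subgroup N
      have h2 := hp.out.two_le
      have h3 : 0 < Nat.card (G ⧸ N) := Nat.card_pos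
      rw [hNcard] at h1
      nlinarith
    have hquot := ih _ hlt (G ⧸ N) rfl (hG.to_quotient N) (hmin.quot N hNQ)
    have hQN : ∀ f ∈ Q, ∀ g : G, ⁅g, f⁆ ∈ N := by
      intro f hf g
      have h1 : (QuotientGroup.mk' N f) ∈ center (G ⧸ N) := by
        apply hquot
        have : (⊤ : Subgroup (G ⧸ N)) = (⊤ : Subgroup G).map (QuotientGroup.mk' N) :=
          (Subgroup.map_top_of_surjective _ (QuotientGroup.mk'_surjective N)).symm
        rw [this, ← Qd_map]
        exact ⟨f, hf, rfl⟩
      have h2 := Subgroup.mem_center_iff.mp h1 (QuotientGroup.mk' N g)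
      rw [← commutatorElement_eq_one_iff_mul_comm, ← map_commutatorElement] at h2
      exact (QuotientGroup.eq_one_iff _).mp h2
    set C := centralizer (Q : Set G) with hC
    have hCtop : C ≠ ⊤ := by
      intro h
      rw [hC, Subgroup.centralizer_eq_top_iff_subset] at h
      exact hnot h
    have hcount := index_centralizer_le_relIndex hG Q N hNc hNcard hQN
    rw [← hC] at hcount
    have hzC : center G ≤ C := Subgroup.center_le_centralizer _
    have hNp : ∀ x ∈ N, x ^ p = 1 := by
      intro x hx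
      have h1 : orderOf x ∣ p := by
        rw [← hNcard]
        have := orderOf_dvd_natCard (⟨x, hx⟩ : N)
        rwa [Subgroup.orderOf_mk] at this
      exact orderOf_dvd_iff_pow_eq_one.mp h1
    have hQC : Qd q C ≤ Q ⊓ center G := by
      refine le_inf (Qd_mono q le_top) ?_
      rw [Qd_le_iff]
      refine ⟨?_, fun x hx => pow_central hq hNc hNp hQN hx⟩
      have h1 : ⁅⁅C, (⊤ : Subgroup G)⁆, C⁆ = ⊥ := by
        rw [Subgroup.commutator_eq_bot_iff_le_centralizer]
        refine le_trans ?_ (Subgroup.le_centralizer_iff.mpr (le_of_eq hC))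
        exact (Subgroup.commutator_mono le_top le_rfl).trans (comm_le_Qd q _)
      have h2 : ⁅⁅(⊤ : Subgroup G), C⁆, C⁆ = ⊥ := by
        rw [Subgroup.commutator_comm ⊤ C]
        exact h1
      have h3 := Subgroup.commutator_commutator_eq_bot_of_rotate h1 h2
      rw [Subgroup.commutator_eq_bot_iff_le_centralizer, Subgroup.coe_top,
        Subgroup.centralizer_univ] at h3
      exact h3
    have hlt2 := hmin C hCtop
    have hle : (Q ⊓ center G).relIndex C ≤ (Qd q C).relIndex C :=
      Subgroup.relIndex_le_of_le_left hQC (relIndex_ne _ _)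
    have e1 := Subgroup.relIndex_mul_index (H := Q ⊓ center G) (K := C)
      (inf_le_right.trans hzC)
    have e2 := Subgroup.relIndex_mul_index (H := Q ⊓ center G) (K := Q) inf_le_left
    have e3 := card_mul_rel (H := Q ⊓ center G) (K := Q) inf_le_left
    have hc0 : 0 < Nat.card (Q ⊓ center G : Subgroup G) := Nat.card_pos
    -- `C.index ≤ (Q ⊓ Z).relIndex Q`
    have e4 : C.index ≤ (Q ⊓ center G).relIndex Q := by
      rw [← e3] at hcount
      rw [mul_comm] at hcount
      exact Nat.le_of_mul_le_mul_left hcount hc0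
    have hCi : 0 < C.index := Nat.pos_of_ne_zero Subgroup.index_ne_zero_of_finite
    have e5 : Q.index ≤ (Q ⊓ center G).relIndex C := by
      have h6 : (Q ⊓ center G).relIndex C * C.index =
          (Q ⊓ center G).relIndex Q * Q.index := by rw [e1, e2]
      by_contra h7
      push Not at h7
      have h8 : (Q ⊓ center G).relIndex C * C.index < Q.index * C.index :=
        Nat.mul_lt_mul_of_pos_right h7 hCi
      have h9 : Q.index * C.index ≤ Q.index * (Q ⊓ center G).relIndex Q :=
        Nat.mul_le_mul_left _ e4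
      have h10 := mul_comm Q.index ((Q ⊓ center G).relIndex Q)
      omega
    exact lt_irrefl _ (lt_of_le_of_lt (e5.trans hle) hlt2)

theorem even_mul_pow_sub {p k : ℕ} : 2 ∣ p * (p ^ k - 1) := by
  rcases Nat.even_or_odd p with h | h
  · exact Dvd.dvd.mul_right h.two_dvd _
  · refine Dvd.dvd.mul_left ?_ _
    have h1 : Odd (p ^ k) := h.pow
    obtain ⟨m, hm⟩ := h1
    exact ⟨m, by omega⟩

theorem dvd_choose_two (p : ℕ) (k : ℕ) : p ^ k ∣ (p ^ (k + 1)).choose 2 := by
  rw [Nat.choose_two_right, pow_succ, mul_assoc, Nat.mul_div_assoc]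
  · exact Dvd.intro _ rfl
  · rw [← pow_succ]
    exact even_mul_pow_sub

/-- the last step: in a group with central `Q = G' G ^ (p ^ 2)` the elements with `x ^ (p ^ 3) = 1`
form a large subgroup. -/
theorem final_step {p : ℕ} {G : Type*} [Group G] [Finite G]
    (hc : Qd (p ^ 2) (⊤ : Subgroup G) ≤ center G) :
    ∃ E : Subgroup G, (∀ x ∈ E, x ^ (p ^ 3) = 1) ∧
      (∀ x y z : G, ⁅⁅x, y⁆, z⁆ = 1) ∧
      (Qd (p ^ 2) (⊤ : Subgroup G)).index ≤ Nat.card E := by
  have hcomm : ∀ x y : G, ⁅x, y⁆ ∈ center G := fun x y =>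
    hc (comm_le_Qd _ _ (Subgroup.commutator_mem_commutator (Subgroup.mem_top x)
      (Subgroup.mem_top y)))
  have hcl : ∀ x y z : G, ⁅⁅x, y⁆, z⁆ = 1 := by
    intro x y z
    rw [commutatorElement_eq_one_iff_mul_comm]
    exact (Subgroup.mem_center_iff.mp (hcomm x y) z).symm
  have hmul : ∀ x y : G, (x * y) ^ (p ^ 3) = x ^ (p ^ 3) * y ^ (p ^ 3) := by
    intro x y
    set c := ⁅y⁻¹, x⁻¹⁆ with hcdef
    have hcc : ∀ g : G, g * c = c * g := fun g => Subgroup.mem_center_iff.mp (hcomm _ _) g
    have hck : ∀ (g : G) (k : ℕ), g * c ^ k = c ^ k * g := fun g k =>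
      (show Commute g c from hcc g).pow_right k
    have e0 : y * x = x * y * c := by
      rw [hcdef, commutatorElement_def]
      group
    have e1 : ∀ n : ℕ, y ^ n * x = x * y ^ n * c ^ n := by
      intro n
      induction n with
      | zero => simp
      | succ n ih =>
        calc y ^ (n + 1) * x = y * (y ^ n * x) := by rw [pow_succ']; group
          _ = (y * x) * y ^ n * c ^ n := by rw [ih]; group
          _ = x * y * (c * y ^ n) * c ^ n := by rw [e0]; group
          _ = x * y * (y ^ n * c) * c ^ n := by rw [hcc]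
          _ = x * y ^ (n + 1) * c ^ (n + 1) := by rw [pow_succ' y, pow_succ' c]; group
    have e2 : ∀ n : ℕ, (x * y) ^ n = x ^ n * y ^ n * c ^ (n.choose 2) := by
      intro n
      induction n with
      | zero => simp
      | succ n ih =>
        have e4 : (n + 1).choose 2 = n + n.choose 2 := by
          rw [Nat.choose_succ_succ' n 1, Nat.choose_one_right]
        calc (x * y) ^ (n + 1) = x ^ n * y ^ n * (c ^ (n.choose 2) * (x * y)) := by
              rw [pow_succ, ih]; group
          _ = x ^ n * y ^ n * ((x * y) * c ^ (n.choose 2)) := by rw [hck]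
          _ = x ^ n * (y ^ n * x) * y * c ^ (n.choose 2) := by group
          _ = x ^ n * x * y ^ n * (c ^ n * y) * c ^ (n.choose 2) := by rw [e1]; group
          _ = x ^ n * x * y ^ n * (y * c ^ n) * c ^ (n.choose 2) := by rw [hck y n]
          _ = x ^ (n + 1) * y ^ (n + 1) * c ^ ((n + 1).choose 2) := by
              rw [pow_succ x, pow_succ y, e4, pow_add c]; group
    have hc2 : c ^ (p ^ 2) = 1 := by
      have h1 := e1 (p ^ 2)
      have h2 := Subgroup.mem_center_iff.mp (hc (pow_mem_Qd (p ^ 2) (Subgroup.mem_top y))) x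
      rw [← h2] at h1
      exact (mul_eq_left.mp h1.symm)
    rw [e2]
    obtain ⟨k, hk⟩ := dvd_choose_two p 2
    rw [show (2 : ℕ) + 1 = 3 from rfl] at hk
    rw [hk, pow_mul, hc2, one_pow, mul_one]
  let ψ : G →* G :=
    { toFun := fun x => x ^ (p ^ 3)
      map_one' := one_pow _
      map_mul' := hmul }
  refine ⟨ψ.ker, fun x hx => hx, hcl, ?_⟩
  have hr : ψ.range ≤ Qd (p ^ 2) (⊤ : Subgroup G) := by
    rintro _ ⟨x, rfl⟩
    have h1 : x ^ (p ^ 3) = (x ^ p) ^ (p ^ 2) := by
      rw [← pow_mul]
      congr 1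
      ring
    change x ^ (p ^ 3) ∈ _
    rw [h1]
    exact pow_mem_Qd _ (Subgroup.mem_top _)
  have h2 := Subgroup.index_ker ψ
  have h3 := Subgroup.card_mul_index ψ.ker
  have h4 := Subgroup.card_mul_index ψ.range
  have h5 : ψ.range.index = Nat.card ψ.ker := by
    rw [h2] at h3
    have h6 : 0 < Nat.card ψ.range := Nat.card_pos
    rw [← h3, mul_comm] at h4
    exact Nat.eq_of_mul_eq_mul_right h6 h4
  rw [← h5]
  exact Nat.le_of_dvd (Nat.pos_of_ne_zero Subgroup.index_ne_zero_of_finite)
    (Subgroup.index_dvd_of_le hr)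

/-- **Laffey's theorem for all primes.**  Every finite `p`-group `G` has a subgroup `E` of class at
most two and exponent dividing `p ^ 3` whose order is at least the index of `G' G ^ (p ^ 2)`. -/
theorem laffey {p : ℕ} [hp : Fact p.Prime] {G : Type*} [Group G] [Finite G] (hG : IsPGroup p G) :
    ∃ E : Subgroup G, (∀ x ∈ E, x ^ (p ^ 3) = 1) ∧
      (∀ x ∈ E, ∀ y ∈ E, ∀ z ∈ E, ⁅⁅x, y⁆, z⁆ = 1) ∧
      (Qd (p ^ 2) (⊤ : Subgroup G)).index ≤ Nat.card E := by
  classical
  let S : Set (Subgroup G) :=
    {H | (Qd (p ^ 2) (⊤ : Subgroup G)).index ≤ (Qd (p ^ 2) H).relIndex H}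
  have hS : S.Nonempty := ⟨⊤, by
    rw [Set.mem_setOf_eq, Subgroup.relIndex_top_right]⟩
  obtain ⟨H, hHS, hHmin⟩ := (Set.toFinite S).exists_minimal hS
  have hQH : (Qd (p ^ 2) (⊤ : Subgroup H)).map H.subtype = Qd (p ^ 2) H := by
    rw [Qd_map, ← MonoidHom.range_eq_map, Subgroup.range_subtype]
  have hrel : (Qd (p ^ 2) (⊤ : Subgroup H)).index = (Qd (p ^ 2) H).relIndex H := by
    rw [← hQH, ← Subgroup.relIndex_top_right,
      ← Subgroup.relIndex_map_map_of_injective _ _ H.subtype_injective,
      ← MonoidHom.range_eq_map, Subgroup.range_subtype]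
  have hmini : Mini (p ^ 2) H := by
    intro K hK
    by_contra hcon
    push Not at hcon
    have hlt : K.map H.subtype < H := by
      refine lt_of_le_of_ne ?_ ?_
      · rintro _ ⟨x, -, rfl⟩
        exact x.2
      · intro h
        apply hK
        rw [eq_top_iff]
        intro x _
        have hx : (x : G) ∈ K.map H.subtype := by
          rw [h]
          exact x.2
        obtain ⟨y, hy, hyx⟩ := hx
        have : y = x := H.subtype_injective hyx
        rw [← this]
        exact hy
    have hKS : K.map H.subtype ∈ S := by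
      rw [Set.mem_setOf_eq, ← Qd_map, Subgroup.relIndex_map_map_of_injective _ _ H.subtype_injective]
      refine le_trans hHS ?_
      rw [← hrel]
      exact hcon
    exact absurd (hHmin hKS hlt.le) (not_le_of_gt hlt)
  have hdvd : p ∣ (p ^ 2).choose 2 := by
    have := dvd_choose_two p 1
    rwa [pow_one, show (1 : ℕ) + 1 = 2 from rfl] at this
  have hcen := center_of_min hdvd _ H rfl (hG.to_subgroup H) hmini
  obtain ⟨E, h1, h2, h3⟩ := final_step hcen
  refine ⟨E.map H.subtype, ?_, ?_, ?_⟩
  · rintro _ ⟨x, hx, rfl⟩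
    rw [← map_pow, h1 x hx, map_one]
  · rintro _ ⟨x, hx, rfl⟩ _ ⟨y, hy, rfl⟩ _ ⟨z, hz, rfl⟩
    rw [← map_commutatorElement, ← map_commutatorElement, h2, map_one]
  · rw [Subgroup.card_map_of_injective H.subtype_injective]
    refine le_trans ?_ h3
    rw [hrel]
    exact hHS

/-- Laffey's theorem for a section `D / N` that is abelian of exponent dividing `p ^ 2`. -/
theorem laffey_section {p : ℕ} [hp : Fact p.Prime] {G : Type*} [Group G] [Finite G]
    (hG : IsPGroup p G) (D N : Subgroup G) (h1 : ⁅D, D⁆ ≤ N) (h2 : ∀ x ∈ D, x ^ (p ^ 2) ∈ N) :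
    ∃ E : Subgroup G, E ≤ D ∧ (∀ x ∈ E, x ^ (p ^ 3) = 1) ∧
      (∀ x ∈ E, ∀ y ∈ E, ∀ z ∈ E, ⁅⁅x, y⁆, z⁆ = 1) ∧ N.relIndex D ≤ Nat.card E := by
  obtain ⟨E, e1, e2, e3⟩ := laffey (hG.to_subgroup D)
  refine ⟨E.map D.subtype, ?_, ?_, ?_, ?_⟩
  · rintro _ ⟨x, -, rfl⟩
    exact x.2
  · rintro _ ⟨x, hx, rfl⟩
    rw [← map_pow, e1 x hx, map_one]
  · rintro _ ⟨x, hx, rfl⟩ _ ⟨y, hy, rfl⟩ _ ⟨z, hz, rfl⟩
    rw [← map_commutatorElement, ← map_commutatorElement, e2 x hx y hy z hz, map_one]
  · rw [Subgroup.card_map_of_injective D.subtype_injective]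
    refine le_trans ?_ e3
    have hQ : (Qd (p ^ 2) (⊤ : Subgroup D)).map D.subtype = Qd (p ^ 2) D := by
      rw [Qd_map, ← MonoidHom.range_eq_map, Subgroup.range_subtype]
    rw [← Subgroup.relIndex_top_right,
      ← Subgroup.relIndex_map_map_of_injective _ _ D.subtype_injective,
      ← MonoidHom.range_eq_map, Subgroup.range_subtype, hQ]
    exact Subgroup.relIndex_le_of_le_left (Qd_le_iff.mpr ⟨h1, h2⟩) (relIndex_ne _ _)

end Main

end Pool.Agent.Helper46.RK
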