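import Pool.Agent.Helper43.RK.Defs
import Pool.Agent.Helper60.RK.Star

/-! Project RK (MP_aa96c4_al), master text section 2: the statements `E3` and `PowHom`. -/

set_option autoImplicit false

namespace Pool.Agent.Helper46.RK

open Pool.Agent.Helper27.BE Pool.Agent.Helper60.RK RK43
open scoped commutatorElement

/-- `v_p` of `(p ^ m).choose l`. -/
theorem exists_t {p : ℕ} (hp : p.Prime) (m l : ℕ) (hl : 1 ≤ l) :
    ∃ t, p ^ t ∣ (p ^ m).choose l ∧ p ^ m ≤ p ^ t * l := by
  obtain ⟨v, u, hu, hlu⟩ := Nat.exists_eq_pow_mul_and_not_dvd (n := l) (by omega) p hp.ne_one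
  have hu0 : 0 < u := Nat.pos_of_ne_zero (fun h => hu (h ▸ dvd_zero p))
  have hvl : p ^ v ≤ l := by
    rw [hlu]
    exact Nat.le_mul_of_pos_right _ hu0
  rcases le_or_gt v m with hv | hv
  · refine ⟨m - v, ?_, ?_⟩
    · have h1 : l * (p ^ m).choose l = p ^ m * (p ^ m - 1).choose (l - 1) := by
        have h2 := Nat.add_one_mul_choose_eq (p ^ m - 1) (l - 1)
        have h3 : p ^ m - 1 + 1 = p ^ m := Nat.sub_add_cancel (Nat.one_le_pow _ _ hp.pos)
        have h4 : l - 1 + 1 = l := Nat.sub_add_cancel hl
        rw [h3, h4] at h2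
        rw [h2]
        ring
      have h9 : p ^ m = p ^ v * p ^ (m - v) := by rw [← pow_add]; congr 1; omega
      have h5 : p ^ v * p ^ (m - v) ∣ p ^ v * (u * (p ^ m).choose l) := by
        rw [← h9]
        refine ⟨(p ^ m - 1).choose (l - 1), ?_⟩
        rw [← h1]
        conv_rhs => rw [hlu]
        ring_nf
        rw [show p ^ v * u = l from hlu.symm]
      have h6 : p ^ (m - v) ∣ u * (p ^ m).choose l :=
        Nat.dvd_of_mul_dvd_mul_left (pow_pos hp.pos v) h5
      have hcop : Nat.Coprime (p ^ (m - v)) u :=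
        Nat.Coprime.pow_left _ ((hp.coprime_iff_not_dvd).mpr hu)
      exact hcop.dvd_of_dvd_mul_left h6
    · calc p ^ m = p ^ (m - v) * p ^ v := by rw [← pow_add]; congr 1; omega
        _ ≤ p ^ (m - v) * l := Nat.mul_le_mul_left _ hvl
  · refine ⟨m, ?_, Nat.le_mul_of_pos_right _ hl⟩
    have h1 : p ^ m < l := lt_of_lt_of_le (Nat.pow_lt_pow_right hp.one_lt hv) hvl
    rw [Nat.choose_eq_zero_of_lt h1]
    exact dvd_zero _

section abs

variable {H : Type} [Group H] {p : ℕ}

theorem cm_eq (x y : H) : cm x y = ⁅x, y⁆ := rfl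

/-- the commutators of `⟨g⟩ γ_(a+1)`, `g ∈ γ_a`. -/
theorem comm_gc {a : ℕ} (ha : 1 ≤ a) {g : H} (hg : g ∈ gam H a) :
    ⁅Subgroup.zpowers g ⊔ gam H (a + 1), Subgroup.zpowers g ⊔ gam H (a + 1)⁆ ≤
      gam H (2 * a + 1) := by
  have hn1 := gam_normal' (G := H) (a + 1)
  have hn2 := gam_normal' (G := H) (2 * a + 1)
  have h1 : ⁅gam H a, gam H (a + 1)⁆ ≤ gam H (2 * a + 1) :=
    (gam_commutator ha (by omega)).trans (gam_anti' (by omega))
  have hga : Subgroup.zpowers g ≤ gam H a := by
    rw [Subgroup.zpowers_le]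
    exact hg
  have hle : gam H (a + 1) ≤ gam H a := gam_anti' (by omega)
  rw [Subgroup.commutator_le]
  intro x hx y hy
  rw [Subgroup.mem_sup_of_normal_right] at hx hy
  obtain ⟨s, hs, u, hu, rfl⟩ := hx
  obtain ⟨t, ht, v, hv, rfl⟩ := hy
  obtain ⟨i, rfl⟩ := Subgroup.mem_zpowers_iff.1 hs
  obtain ⟨j, rfl⟩ := Subgroup.mem_zpowers_iff.1 ht
  let q := QuotientGroup.mk' (gam H (2 * a + 1))
  have hq : ∀ z, z ∈ gam H (2 * a + 1) ↔ q z = 1 := fun z =>
    (QuotientGroup.eq_one_iff z).symm
  rw [hq, map_commutatorElement, commutatorElement_eq_one_iff_mul_comm]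
  -- `q (g^i)` commutes with `q u`, etc.
  have hc : ∀ r ∈ gam H a, ∀ u ∈ gam H (a + 1), Commute (q r) (q u) := by
    intro r hr u hu
    have h2 := h1 (Subgroup.commutator_mem_commutator hr hu)
    rw [hq, map_commutatorElement, commutatorElement_eq_one_iff_mul_comm] at h2
    exact h2
  have c1 : Commute (q (g ^ i)) (q (g ^ j)) := by
    rw [map_zpow, map_zpow]
    exact (Commute.refl (q g)).zpow_zpow i j
  have c2 : Commute (q (g ^ i)) (q v) := hc _ (hga hs) _ hv
  have c3 : Commute (q u) (q (g ^ j)) := (hc _ (hga ht) _ hu).symm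
  have c4 : Commute (q u) (q v) := hc _ (hle hu) _ hv
  rw [map_mul, map_mul]
  exact (Commute.mul_left (Commute.mul_right c1 c2) (Commute.mul_right c3 c4)).eq

/-- the series `⟨g⟩ γ_(a+1)`, `⟨g⟩ γ_(a+1)`, `γ_(2a+1)`, `γ_(3a+1)`, … -/
theorem nser_gc {a : ℕ} (ha : 1 ≤ a) {g : H} (hg : g ∈ gam H a) :
    NSer (fun l : ℕ => if l ≤ 1 then Subgroup.zpowers g ⊔ gam H (a + 1) else
      gam H (l * a + 1)) where
  anti := by
    intro l m hlm
    by_cases hl : l ≤ 1
    · by_cases hm : m ≤ 1
      · simp [hl, hm]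
      · simp only [hl, hm, if_true, if_false]
        refine le_trans (gam_anti' ?_) le_sup_right
        have : 1 * a ≤ m * a := Nat.mul_le_mul_right _ (by omega)
        omega
    · have hm : ¬ m ≤ 1 := by omega
      simp only [hl, hm, if_false]
      apply gam_anti'
      have := Nat.mul_le_mul_right a hlm
      omega
  comm := by
    have hn1 := gam_normal' (G := H) (a + 1)
    have hE : Subgroup.zpowers g ⊔ gam H (a + 1) ≤ gam H a := by
      refine sup_le ?_ (gam_anti' (by omega))
      rw [Subgroup.zpowers_le]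
      exact hg
    have key : ∀ i j, i ≤ 1 → 2 ≤ j → ⁅Subgroup.zpowers g ⊔ gam H (a + 1), gam H (j * a + 1)⁆ ≤
        gam H ((i + j) * a + 1) := by
      intro i j hi hj
      refine (Subgroup.commutator_mono hE le_rfl).trans ?_
      refine (gam_commutator ha (by omega)).trans (gam_anti' ?_)
      have : (i + j) * a ≤ (1 + j) * a := Nat.mul_le_mul_right _ (by omega)
      have h2 : (1 + j) * a = a + j * a := by ring
      omega
    intro i j
    by_cases hi : i ≤ 1
    · by_cases hj : j ≤ 1
      · simp only [hi, hj, if_true]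
        by_cases hij : i + j ≤ 1
        · simp only [hij, if_true]
          refine (comm_gc ha hg).trans (le_trans (gam_anti' ?_) le_sup_right)
          omega
        · simp only [hij, if_false]
          have : i + j = 2 := by omega
          rw [this]
          exact comm_gc ha hg
      · have hij : ¬ i + j ≤ 1 := by omega
        simp only [hi, hj, hij, if_true, if_false]
        exact key i j hi (by omega)
    · by_cases hj : j ≤ 1
      · have hij : ¬ i + j ≤ 1 := by omega
        simp only [hi, hj, hij, if_true, if_false]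
        rw [Subgroup.commutator_comm, add_comm i j]
        exact key j i hj (by omega)
      · have hij : ¬ i + j ≤ 1 := by omega
        simp only [hi, hj, hij, if_false]
        refine (gam_commutator (by omega) (by omega)).trans (gam_anti' ?_)
        have : (i + j) * a = i * a + j * a := by ring
        omega

/-- (E3), abstract form. -/
theorem e3_abs (hp : p.Prime) {K h w : ℕ} (hK : gam H K = ⊥)
    (hc : ∀ i m, 1 ≤ i → h ≤ p ^ m * (i * w) → ∀ g ∈ gam H i, ∀ y : H,
      y * g ^ p ^ m = g ^ p ^ m * y) :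
    ∀ i m, 2 ≤ i → h ≤ p ^ m * ((i - 1) * w) → ∀ g ∈ gam H i, g ^ p ^ m = 1 := by
  have main : ∀ d i m, K - i ≤ d → 2 ≤ i → h ≤ p ^ m * ((i - 1) * w) →
      ∀ g ∈ gam H i, g ^ p ^ m = 1 := by
    intro d
    induction d with
    | zero =>
      intro i m hd hi _ g hg
      have h1 : g ∈ gam H K := gam_anti' (by omega) hg
      rw [hK, Subgroup.mem_bot] at h1
      rw [h1, one_pow]
    | succ d ih =>
      intro i m hd hi hm
      rcases Nat.lt_or_ge i K with hiK | hiK
      swap
      · exact ih i m (by omega) hi hm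
      -- coefficients die
      have kill : ∀ (l e : ℕ) (c : H), 2 ≤ l → i < e → l * (i - 1) ≤ e - 1 → c ∈ gam H e →
          c ^ ((p ^ m).choose l) = 1 := by
        intro l e c hl hie hle hce
        obtain ⟨t, ⟨q, hq⟩, ht⟩ := exists_t hp m l (by omega)
        have h1 : h ≤ p ^ t * ((e - 1) * w) := by
          calc h ≤ p ^ m * ((i - 1) * w) := hm
            _ ≤ (p ^ t * l) * ((i - 1) * w) := Nat.mul_le_mul_right _ ht
            _ = p ^ t * ((l * (i - 1)) * w) := by ring
            _ ≤ p ^ t * ((e - 1) * w) :=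
              Nat.mul_le_mul_left _ (Nat.mul_le_mul_right _ hle)
        have h2 := ih e t (by omega) (by omega) h1 c hce
        rw [hq, pow_mul, h2, one_pow]
      -- commutators
      have stepA : ∀ x g : H, g ∈ gam H (i - 1) → (cm x g) ^ p ^ m = 1 := by
        intro x g hg
        have ha : 1 ≤ i - 1 := by omega
        have hz : cm x g ∈ gam H (i - 1 + 1) := by
          have := (Pool.Agent.Helper31.BE.gamCalc H).comm 1 (i - 1) le_rfl ha x
            (by rw [gam_one]; trivial) g hg
          rwa [add_comm] at this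
        have hF := nser_gc ha hg
        obtain ⟨c, hcF, hc0, hc1, hL⟩ := hall_petrescu hF (x := cm x g) (y := g)
          (by simp only [le_refl, if_true]; exact Subgroup.mem_sup_right hz)
          (by simp only [le_refl, if_true]
              exact Subgroup.mem_sup_left (Subgroup.mem_zpowers g))
        have hbot : (fun l : ℕ => if l ≤ 1 then Subgroup.zpowers g ⊔ gam H (i - 1 + 1) else
            gam H (l * (i - 1) + 1)) (K + 2) = ⊥ := by
          have h1 : ¬ K + 2 ≤ 1 := by omega
          simp only [h1, if_false]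
          rw [eq_bot_iff, ← hK]
          apply gam_anti'
          have : (K + 2) * 1 ≤ (K + 2) * (i - 1) := Nat.mul_le_mul_left _ ha
          omega
        have h3 := hL (K + 2) (p ^ m) (Or.inr hbot)
        have h4 : ((List.range (K + 2)).map fun l => (c l) ^ ((p ^ m).choose l)).prod = 1 := by
          apply List.prod_eq_one
          intro z hz
          rw [List.mem_map] at hz
          obtain ⟨l, _, rfl⟩ := hz
          rcases Nat.lt_or_ge l 2 with hl | hl
          · have : l = 0 ∨ l = 1 := by omega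
            rcases this with rfl | rfl
            · rw [hc0, one_pow]
            · rw [hc1, one_pow]
          · have h5 := hcF l
            have h6 : ¬ l ≤ 1 := by omega
            simp only [h6, if_false] at h5
            have h8 : 2 * (i - 1) ≤ l * (i - 1) := Nat.mul_le_mul_right _ hl
            exact kill l _ _ hl (by omega) (by omega) h5
        rw [h4, mul_one] at h3
        have h5 : (cm x g * g) ^ p ^ m = g ^ p ^ m := by
          have h6 : cm x g * g = x * g * x⁻¹ := by rw [cm]; group
          rw [h6, conj_pow, hc (i - 1) m ha hm g hg x]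
          group
        rw [h5] at h3
        exact (mul_eq_right.1 h3.symm)
      -- products
      have hgen : gam H i = Subgroup.closure {z | ∃ x : H, ∃ y ∈ gam H (i - 1), z = cm x y} := by
        have := (Pool.Agent.Helper31.BE.gamCalc H).gen (i - 1) (by omega)
        rwa [Nat.sub_add_cancel (by omega)] at this
      intro g hg
      rw [hgen] at hg
      induction hg using Subgroup.closure_induction with
      | mem z hz =>
        obtain ⟨x, y, hy, rfl⟩ := hz
        exact stepA x y hy
      | one => exact one_pow _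
      | mul a b ha hb iha ihb =>
        rw [← hgen] at ha hb
        have hF := nser_gam (G := H) (j := i) (by omega)
        obtain ⟨c, hcF, hc0, hc1, hL⟩ := hall_petrescu hF (x := a) (y := b)
          (by simpa using ha) (by simpa using hb)
        have hbot : (fun l : ℕ => if l = 0 then (⊤ : Subgroup H) else gam H (i * l)) (K + 1) =
            ⊥ := by
          have h1 : K + 1 ≠ 0 := by omega
          simp only [h1, if_false]
          rw [eq_bot_iff, ← hK]
          apply gam_anti'
          have : 1 * (K + 1) ≤ i * (K + 1) := Nat.mul_le_mul_right _ (by omega)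
          omega
        have h3 := hL (K + 1) (p ^ m) (Or.inr hbot)
        have h4 : ((List.range (K + 1)).map fun l => (c l) ^ ((p ^ m).choose l)).prod = 1 := by
          apply List.prod_eq_one
          intro z hz
          rw [List.mem_map] at hz
          obtain ⟨l, _, rfl⟩ := hz
          rcases Nat.lt_or_ge l 2 with hl | hl
          · have : l = 0 ∨ l = 1 := by omega
            rcases this with rfl | rfl
            · rw [hc0, one_pow]
            · rw [hc1, one_pow]
          · have h5 := hcF l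
            have h6 : l ≠ 0 := by omega
            simp only [h6, if_false] at h5
            have h7 : i * 2 ≤ i * l := Nat.mul_le_mul_left _ hl
            have h8 : l * (i - 1) ≤ i * l - 1 := by
              have h9 : l * (i - 1) + l = i * l := by
                obtain ⟨r, rfl⟩ := Nat.exists_eq_add_of_le (show 1 ≤ i by omega)
                rw [Nat.add_sub_cancel_left]
                ring
              omega
            exact kill l _ _ hl (by omega) h8 h5
        rw [h3, h4, iha, ihb, one_mul, one_mul]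
      | inv a _ iha => rw [inv_pow, iha, inv_one]
  exact fun i m => main (K - i) i m le_rfl

/-- (T), abstract form: powers are multiplicative. -/
theorem pow_abs (hp : p.Prime) {K h w : ℕ} (hK : gam H K = ⊥)
    (he : ∀ i m, 2 ≤ i → h ≤ p ^ m * ((i - 1) * w) → ∀ g ∈ gam H i, g ^ p ^ m = 1) {r : ℕ}
    (hr : 2 * h ≤ p ^ r * w) (x y : H) : (x * y) ^ p ^ r = x ^ p ^ r * y ^ p ^ r := by
  have hF := nser_gam (G := H) (j := 1) le_rfl
  obtain ⟨c, hcF, hc0, hc1, hL⟩ := hall_petrescu hF (x := x) (y := y)
    (by simp only [one_ne_zero, if_false, mul_one]; rw [gam_one]; trivial)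
    (by simp only [one_ne_zero, if_false, mul_one]; rw [gam_one]; trivial)
  have hbot : (fun l : ℕ => if l = 0 then (⊤ : Subgroup H) else gam H (1 * l)) (K + 1) = ⊥ := by
    have h1 : K + 1 ≠ 0 := by omega
    simp only [h1, if_false]
    rw [eq_bot_iff, ← hK]
    exact gam_anti' (by omega)
  have h3 := hL (K + 1) (p ^ r) (Or.inr hbot)
  have h4 : ((List.range (K + 1)).map fun l => (c l) ^ ((p ^ r).choose l)).prod = 1 := by
    apply List.prod_eq_one
    intro z hz
    rw [List.mem_map] at hz
    obtain ⟨l, _, rfl⟩ := hz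
    rcases Nat.lt_or_ge l 2 with hl | hl
    · have : l = 0 ∨ l = 1 := by omega
      rcases this with rfl | rfl
      · rw [hc0, one_pow]
      · rw [hc1, one_pow]
    · have h5 := hcF l
      have h6 : l ≠ 0 := by omega
      simp only [h6, if_false, one_mul] at h5
      obtain ⟨t, ⟨q, hq⟩, ht⟩ := exists_t hp r l (by omega)
      have h7 : h ≤ p ^ t * ((l - 1) * w) := by
        have h8 : l * h ≤ l * (p ^ t * ((l - 1) * w)) := by
          calc l * h ≤ (2 * (l - 1)) * h := Nat.mul_le_mul_right _ (by omega)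
            _ = (l - 1) * (2 * h) := by ring
            _ ≤ (l - 1) * (p ^ r * w) := Nat.mul_le_mul_left _ hr
            _ ≤ (l - 1) * ((p ^ t * l) * w) :=
              Nat.mul_le_mul_left _ (Nat.mul_le_mul_right _ ht)
            _ = l * (p ^ t * ((l - 1) * w)) := by ring
        exact Nat.le_of_mul_le_mul_left h8 (by omega)
      rw [hq, pow_mul, he l t hl h7 _ h5, one_pow]
  rw [h3, h4, mul_one]

end abs

section group

variable {p : ℕ} [hpf : Fact p.Prime] {G : Type} [Group G]

/-- the lower central series of a subgroup of `S 1`. -/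
theorem gam_sub {A : Subgroup G} {S : ℕ → Subgroup G} (hA : A ≤ S 1)
    (hS : ∀ i, 1 ≤ i → ∀ x ∈ A, ∀ y ∈ S i, cm x y ∈ S (i + 1)) :
    ∀ i, 1 ≤ i → ∀ g ∈ gam A i, (g : G) ∈ S i := by
  intro i hi
  induction i, hi using Nat.le_induction with
  | base => exact fun g _ => hA g.2
  | succ i hi ih =>
    intro g hg
    rw [(Pool.Agent.Helper31.BE.gamCalc A).gen i hi] at hg
    induction hg using Subgroup.closure_induction with
    | mem z hz =>
      obtain ⟨x, y, hy, rfl⟩ := hz
      exact hS i hi x x.2 y (ih y hy)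
    | one => exact (S (i + 1)).one_mem
    | mul a b _ _ ha hb => exact (S (i + 1)).mul_mem ha hb
    | inv a _ ha => exact (S (i + 1)).inv_mem ha

theorem gam_sub_gam (A : Subgroup G) (i : ℕ) (hi : 1 ≤ i) (g : A) (hg : g ∈ gam A i) :
    (g : G) ∈ gam G i := by
  refine gam_sub (S := fun i => gam G i) (by rw [gam_one]; exact le_top) ?_ i hi g hg
  intro i hi x _ y hy
  have := (Pool.Agent.Helper31.BE.gamCalc G).comm 1 i le_rfl hi x (by rw [gam_one]; trivial) y hy
  rwa [add_comm] at this

theorem gam_sub_bot {k : ℕ} (hk : gam G (k + 1) = ⊥) (A : Subgroup G) : gam A (k + 1) = ⊥ := by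
  rw [eq_bot_iff]
  intro g hg
  have := gam_sub_gam A (k + 1) (by omega) g hg
  rw [hk, Subgroup.mem_bot] at this
  rw [Subgroup.mem_bot]
  exact Subtype.ext this

theorem gam_XW {k j w : ℕ} (i : ℕ) (hi : 1 ≤ i) (g : XW p G k j w)
    (hg : g ∈ gam (XW p G k j w) i) : (g : G) ∈ dimSub p G (i * w) := by
  refine gam_sub (S := fun i => dimSub p G (i * w)) ?_ ?_ i hi g hg
  · rw [one_mul]
    exact inf_le_right
  · intro i _ x hx y hy
    have := dimSub_comm (p := p) (show x ∈ dimSub p G w from hx.2) hy
    have h2 : w + i * w = (i + 1) * w := by ring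
    rw [h2] at this
    exact this

theorem cent_XW {k j w : ℕ} (i m : ℕ) (hi : 1 ≤ i) (h : HH p k j ≤ p ^ m * (i * w))
    (g : XW p G k j w) (hg : g ∈ gam (XW p G k j w) i) (y : G)
    (hy : y ∈ RKC2.Cj (RKC2.PP p G k) j) : y * (g : G) ^ p ^ m = (g : G) ^ p ^ m * y := by
  have h1 := dimSub_pow_prime_pow (gam_XW i hi g hg) m
  rw [mul_comm (i * w)] at h1
  have h2 : (g : G) ^ p ^ m ∈ RKC2.PP p G k j := dimSub_anti h h1
  exact ((Subgroup.mem_centralizer_iff.1 hy) _ h2).symm

/-- (E3). -/
theorem e3 (p : ℕ) [Fact p.Prime] : E3 p := by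
  intro G _ _ hG k hk1 hk j w m i hi hm g hg
  refine e3_abs (H := XW p G k j w) (Fact.out : p.Prime) (K := k + 1) (h := HH p k j) (w := w)
    (gam_sub_bot hk _) ?_ i m hi hm g hg
  intro i m hi hm g hg y
  apply Subtype.ext
  exact cent_XW i m hi hm g hg y y.2.1

/-- (T). -/
theorem powHom (p : ℕ) [Fact p.Prime] : PowHom p := by
  intro G _ _ hG k hk1 hk j w r hr
  have hE : ∀ i m, 2 ≤ i → HH p k j ≤ p ^ m * ((i - 1) * w) → ∀ g ∈ gam (XW p G k j w) i,
      g ^ p ^ m = 1 := fun i m hi hm => e3 p hG k hk1 hk j w m i hi hm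
  have h1 : ∀ x ∈ XW p G k j w, ∀ y ∈ XW p G k j w,
      (x * y) ^ p ^ r = x ^ p ^ r * y ^ p ^ r := by
    intro x hx y hy
    have := pow_abs (H := XW p G k j w) (Fact.out : p.Prime) (gam_sub_bot hk _) hE hr
      ⟨x, hx⟩ ⟨y, hy⟩
    exact congrArg Subtype.val this
  refine ⟨h1, ?_⟩
  intro x hx y hy
  -- `x^(p^r)` commutes with `y`
  have h2 : y * x ^ p ^ r = x ^ p ^ r * y := by
    have h3 : HH p k j ≤ p ^ r * (1 * w) := by rw [one_mul]; omega
    exact cent_XW 1 r le_rfl h3 ⟨x, hx⟩ (by rw [gam_one]; trivial) y hy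
  have hc : x⁻¹ * y⁻¹ * x * y ∈ XW p G k j w := by
    have hn : (XW p G k j w).Normal := by
      have hP : (RKC2.PP p G k j).Normal := RKC2.PP_normal k j
      have h4 : (RKC2.Cj (RKC2.PP p G k) j).Normal := by
        unfold RKC2.Cj
        infer_instance
      have h5 : (dimSub p G w).Normal := dimSub_normal _
      unfold XW
      infer_instance
    have h6 : x⁻¹ * y⁻¹ * x * y = x⁻¹ * (y⁻¹ * x * y⁻¹⁻¹) := by group
    rw [h6]
    exact mul_mem (inv_mem hx) (hn.conj_mem _ hx _)
  have h7 := h1 x hx _ hc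
  have h8 : x * (x⁻¹ * y⁻¹ * x * y) = y⁻¹ * x * y⁻¹⁻¹ := by group
  rw [h8, conj_pow] at h7
  have h9 : y⁻¹ * x ^ p ^ r * y⁻¹⁻¹ = x ^ p ^ r := by
    rw [inv_inv, mul_assoc, ← h2]
    group
  rw [h9] at h7
  exact (mul_eq_left.1 h7.symm)

end group

end Pool.Agent.Helper46.RK
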