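import Pool.Agent.Helper82.RK.Detect

/-! Project RK (MP_aa96c4_al), master text of helper43, section 1: the ONE-STEP LEMMA (digits).
`F < E` subgroups of a group `G`, every element of `E` is `e ^ a * y` with `a < p`, `y ∈ F`;
`f' (e ^ a * y) = f y`.  If `f` kills the heavy words in letters of `F` then `f'` kills the heavy
words in letters of `E`. -/

set_option autoImplicit false

namespace Pool.Agent.Helper46.RK.Digit

open MonoidAlgebra RKC2

variable {G T : Type} [Group G] [AddCommGroup T]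

/-- the word `(x_1 - 1) ⋯ (x_q - 1)` of a list of letters (with weights). -/
noncomputable def wd (l : List (ℕ × G)) : MonoidAlgebra ℤ G := (l.map (fun q => dl q.2)).prod

/-- total weight. -/
def wt (l : List (ℕ × G)) : ℕ := (l.map Prod.fst).sum

/-- all letters lie in `F` and in the subgroup of their weight. -/
def OK (S : ℕ → Subgroup G) (F : Subgroup G) (l : List (ℕ × G)) : Prop :=
  ∀ q ∈ l, q.2 ∈ F ∧ q.2 ∈ S q.1

/-- `f` kills the heavy words of `F`. -/
def Kill (p : ℕ) (Θ : ℕ → ℕ → ℕ) (R : ℕ) (S : ℕ → Subgroup G) (F : Subgroup G) (f : G → T) :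
    Prop :=
  ∀ (b : ℕ) (l : List (ℕ × G)), l ≠ [] → OK S F l → R ≤ Θ b (wt l) → p ^ b • ext f (wd l) = 0

@[simp] lemma wd_nil : wd ([] : List (ℕ × G)) = 1 := by simp [wd]
omit [Group G] in
@[simp] lemma wt_nil : wt ([] : List (ℕ × G)) = 0 := by simp [wt]
lemma wd_cons (q : ℕ × G) (l : List (ℕ × G)) : wd (q :: l) = dl q.2 * wd l := by simp [wd]
omit [Group G] in
lemma wt_cons (q : ℕ × G) (l : List (ℕ × G)) : wt (q :: l) = q.1 + wt l := by simp [wt]
lemma wd_append (l m : List (ℕ × G)) : wd (l ++ m) = wd l * wd m := by simp [wd]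
omit [Group G] in
lemma wt_append (l m : List (ℕ × G)) : wt (l ++ m) = wt l + wt m := by simp [wt]
lemma wd_snoc (l : List (ℕ × G)) (q : ℕ × G) : wd (l ++ [q]) = wd l * dl q.2 := by
  simp [wd]
omit [Group G] in
lemma wt_snoc (l : List (ℕ × G)) (q : ℕ × G) : wt (l ++ [q]) = wt l + q.1 := by
  simp [wt]

lemma OK_nil {S : ℕ → Subgroup G} {F : Subgroup G} : OK S F [] := by intro q hq; simp at hq

lemma OK_append {S : ℕ → Subgroup G} {F : Subgroup G} {l m : List (ℕ × G)} (hl : OK S F l)
    (hm : OK S F m) : OK S F (l ++ m) := by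
  intro q hq
  rcases List.mem_append.1 hq with h | h
  · exact hl q h
  · exact hm q h

lemma OK_snoc {S : ℕ → Subgroup G} {F : Subgroup G} {l : List (ℕ × G)} (hl : OK S F l)
    {v : ℕ} {y : G} (h1 : y ∈ F) (h2 : y ∈ S v) : OK S F (l ++ [(v, y)]) := by
  refine OK_append hl ?_
  intro q hq
  rw [List.mem_singleton] at hq
  subst hq
  exact ⟨h1, h2⟩

/-- span of `(e - 1)^s * (word of F)` of weight at least `u`. -/
noncomputable def V (S : ℕ → Subgroup G) (F : Subgroup G) (e : G) (w u : ℕ) :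
    AddSubgroup (MonoidAlgebra ℤ G) :=
  AddSubgroup.closure {a | ∃ (s : ℕ) (l : List (ℕ × G)), OK S F l ∧ u ≤ s * w + wt l ∧
    a = dl e ^ s * wd l}

section

variable {S : ℕ → Subgroup G} {F : Subgroup G} {e : G} {w : ℕ}

lemma V_mono {u u' : ℕ} (h : u ≤ u') : V S F e w u' ≤ V S F e w u :=
  AddSubgroup.closure_mono (fun _ ⟨s, l, h1, h2, h3⟩ => ⟨s, l, h1, h.trans h2, h3⟩)

lemma V_gen {s : ℕ} {l : List (ℕ × G)} (hl : OK S F l) {u : ℕ} (hu : u ≤ s * w + wt l) :
    dl e ^ s * wd l ∈ V S F e w u :=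
  AddSubgroup.subset_closure ⟨s, l, hl, hu, rfl⟩

lemma V_word {l : List (ℕ × G)} (hl : OK S F l) {u : ℕ} (hu : u ≤ wt l) :
    wd l ∈ V S F e w u := by
  have := V_gen (e := e) (w := w) (s := 0) hl (u := u) (by simpa using hu)
  simpa using this

/-- multiplication on the right by a fixed element, on generators. -/
lemma V_map_right {u t : ℕ} {b : MonoidAlgebra ℤ G}
    (h : ∀ (s : ℕ) (l : List (ℕ × G)), OK S F l → u ≤ s * w + wt l →
      dl e ^ s * wd l * b ∈ V S F e w t) {a : MonoidAlgebra ℤ G} (ha : a ∈ V S F e w u) :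
    a * b ∈ V S F e w t := by
  unfold V at ha
  induction ha using AddSubgroup.closure_induction with
  | mem a ha =>
    obtain ⟨s, l, h1, h2, rfl⟩ := ha
    exact h s l h1 h2
  | zero => rw [zero_mul]; exact AddSubgroup.zero_mem _
  | add x y _ _ hx hy => rw [add_mul]; exact AddSubgroup.add_mem _ hx hy
  | neg x _ hx => rw [neg_mul]; exact AddSubgroup.neg_mem _ hx

lemma V_left {u : ℕ} (s : ℕ) {a : MonoidAlgebra ℤ G} (ha : a ∈ V S F e w u) :
    dl e ^ s * a ∈ V S F e w (s * w + u) := by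
  unfold V at ha
  induction ha using AddSubgroup.closure_induction with
  | mem a ha =>
    obtain ⟨t, l, h1, h2, rfl⟩ := ha
    rw [← mul_assoc, ← pow_add]
    exact V_gen h1 (by rw [add_mul]; omega)
  | zero => rw [mul_zero]; exact AddSubgroup.zero_mem _
  | add x y _ _ hx hy => rw [mul_add]; exact AddSubgroup.add_mem _ hx hy
  | neg x _ hx => rw [mul_neg]; exact AddSubgroup.neg_mem _ hx

lemma V_letter {u v : ℕ} {y : G} (h1 : y ∈ F) (h2 : y ∈ S v) {a : MonoidAlgebra ℤ G}
    (ha : a ∈ V S F e w u) : a * dl y ∈ V S F e w (u + v) := by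
  refine V_map_right ?_ ha
  intro s l hl hu
  have h3 : dl e ^ s * wd l * dl y = dl e ^ s * wd (l ++ [(v, y)]) := by
    rw [wd_snoc, mul_assoc]
  rw [h3]
  exact V_gen (OK_snoc hl h1 h2) (by rw [wt_snoc]; simp only; omega)

lemma of_eq (g : G) : MonoidAlgebra.of ℤ G g = dl g + 1 := by rw [dl, sub_add_cancel]

lemma dl_mul (x y : G) : (dl (x * y) : MonoidAlgebra ℤ G) = dl x * dl y + dl x + dl y := by
  simp only [dl, map_mul]
  noncomm_ring

lemma dl_one : (dl (1 : G) : MonoidAlgebra ℤ G) = 0 := by rw [dl, map_one, sub_self]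

/-- the commutation rule. -/
lemma dl_comm (y e : G) : (dl y * dl e : MonoidAlgebra ℤ G) =
    dl e * dl y + (dl e + 1) * (dl y + 1) * dl (y⁻¹ * e⁻¹ * y * e) := by
  have h1 : MonoidAlgebra.of ℤ G e * MonoidAlgebra.of ℤ G y *
      MonoidAlgebra.of ℤ G (y⁻¹ * e⁻¹ * y * e) = MonoidAlgebra.of ℤ G y *
      MonoidAlgebra.of ℤ G e := by
    rw [← map_mul, ← map_mul, ← map_mul]
    congr 1
    group
  rw [← of_eq, ← of_eq]
  unfold dl
  rw [mul_sub (MonoidAlgebra.of ℤ G e * MonoidAlgebra.of ℤ G y), mul_one, h1]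
  noncomm_ring

variable (he : ∀ v y, y ∈ F → y ∈ S v → y⁻¹ * e⁻¹ * y * e ∈ F ∧ y⁻¹ * e⁻¹ * y * e ∈ S (v + w))

include he in
lemma word_mul_e (l : List (ℕ × G)) (hl : OK S F l) : wd l * dl e ∈ V S F e w (wt l + w) := by
  induction l using List.reverseRecOn with
  | nil =>
    have := V_gen (e := e) (w := w) (s := 1) (OK_nil (S := S) (F := F))
      (u := wt ([] : List (ℕ × G)) + w) (by rw [wt_nil]; omega)
    simpa using this
  | append_singleton l q ih =>
    obtain ⟨v, y⟩ := q
    have hl' : OK S F l := fun q hq => hl q (List.mem_append_left _ hq)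
    have hq := hl (v, y) (by simp)
    obtain ⟨hc1, hc2⟩ := he v y hq.1 hq.2
    have hi := ih hl'
    set c := y⁻¹ * e⁻¹ * y * e with hc
    rw [wd_snoc, wt_snoc]
    have e1 : wd l * dl y * dl e = wd l * dl e * dl y + wd l * dl c + wd l * dl y * dl c +
        wd l * dl e * dl c + wd l * dl e * dl y * dl c := by
      rw [mul_assoc, dl_comm, ← hc]
      noncomm_ring
    simp only at e1 ⊢
    rw [e1]
    have b0 : wd l ∈ V S F e w (wt l) := V_word hl' le_rfl
    have b1 := V_letter hq.1 hq.2 hi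
    have b2 := V_letter hc1 hc2 b0
    have b3 := V_letter hc1 hc2 (V_letter hq.1 hq.2 b0)
    have b4 := V_letter hc1 hc2 hi
    have b5 := V_letter hc1 hc2 b1
    simp only at b1 b2 b3 b4 b5
    refine AddSubgroup.add_mem _ (AddSubgroup.add_mem _ (AddSubgroup.add_mem _
      (AddSubgroup.add_mem _ (V_mono (by omega) b1) (V_mono (by omega) b2))
      (V_mono (by omega) b3)) (V_mono (by omega) b4)) (V_mono (by omega) b5)

include he in
lemma V_mul_e {u : ℕ} {a : MonoidAlgebra ℤ G} (ha : a ∈ V S F e w u) :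
    a * dl e ∈ V S F e w (u + w) := by
  refine V_map_right ?_ ha
  intro s l hl hu
  rw [mul_assoc]
  exact V_mono (by omega) (V_left s (word_mul_e he l hl))

include he in
lemma V_mul_pow {u : ℕ} {a : MonoidAlgebra ℤ G} (ha : a ∈ V S F e w u) (k : ℕ) :
    a * dl (e ^ k) ∈ V S F e w (u + w) := by
  induction k with
  | zero => rw [pow_zero, dl_one, mul_zero]; exact AddSubgroup.zero_mem _
  | succ k ih =>
    rw [pow_succ, dl_mul, mul_add, mul_add, ← mul_assoc]
    exact AddSubgroup.add_mem _ (AddSubgroup.add_mem _ (V_mono (by omega) (V_mul_e he ih)) ih)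
      (V_mul_e he ha)

include he in
lemma V_letter' {u v : ℕ} {k : ℕ} {y : G} (h1 : y ∈ F) (h2 : y ∈ S v) (hk : k = 0 ∨ v ≤ w)
    {a : MonoidAlgebra ℤ G} (ha : a ∈ V S F e w u) : a * dl (e ^ k * y) ∈ V S F e w (u + v) := by
  have h3 : a * dl (e ^ k) ∈ V S F e w (u + v) := by
    rcases hk with rfl | hk
    · rw [pow_zero, dl_one, mul_zero]; exact AddSubgroup.zero_mem _
    · exact V_mono (by omega) (V_mul_pow he ha k)
  rw [dl_mul, mul_add, mul_add, ← mul_assoc]
  exact AddSubgroup.add_mem _ (AddSubgroup.add_mem _ (V_mono (by omega) (V_letter h1 h2 h3)) h3)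
    (V_letter h1 h2 ha)

include he in
/-- every word of `E` is a combination of `(e - 1)^s * (word of F)` of at least its weight. -/
lemma word_mem_V {E : Subgroup G}
    (h3 : ∀ v x, x ∈ E → x ∈ S v → ∃ (k : ℕ) (y : G), y ∈ F ∧ y ∈ S v ∧ x = e ^ k * y ∧
      (k = 0 ∨ v ≤ w)) (l : List (ℕ × G)) (hl : OK S E l) : wd l ∈ V S F e w (wt l) := by
  induction l using List.reverseRecOn with
  | nil =>
    rw [wd_nil, wt_nil]
    have := V_word (e := e) (w := w) (OK_nil (S := S) (F := F)) (u := 0) (by simp)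
    simpa using this
  | append_singleton l q ih =>
    obtain ⟨v, x⟩ := q
    have hl' : OK S E l := fun q hq => hl q (List.mem_append_left _ hq)
    have hq := hl (v, x) (by simp)
    obtain ⟨k, y, hy1, hy2, hx, hk⟩ := h3 v x hq.1 hq.2
    rw [wd_snoc, wt_snoc]
    simp only
    rw [hx]
    exact V_letter' he hy1 hy2 hk (ih hl')

end

/-- the additive functional on `(e - 1)^s (e^a y)`. -/
lemma ext_pow {F : Subgroup G} {p : ℕ} {e : G} {f f' : G → T}
    (hf : ∀ a y, a < p → y ∈ F → f' (e ^ a * y) = f y) (s a : ℕ) (h : s + a < p) {y : G}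
    (hy : y ∈ F) : ext f' (dl e ^ s * MonoidAlgebra.of ℤ G (e ^ a * y)) =
      if s = 0 then f y else 0 := by
  induction s generalizing a with
  | zero => rw [pow_zero, one_mul, ext_of, if_pos rfl]; exact hf a y (by omega) hy
  | succ s ih =>
    have h1 := ih a (by omega)
    have h2 := ih (a + 1) (by omega)
    have h3 : dl e ^ (s + 1) * MonoidAlgebra.of ℤ G (e ^ a * y) =
        dl e ^ s * MonoidAlgebra.of ℤ G (e ^ (a + 1) * y) -
        dl e ^ s * MonoidAlgebra.of ℤ G (e ^ a * y) := by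
      rw [pow_succ, mul_assoc, ← mul_sub]
      congr 1
      rw [pow_succ' e a, mul_assoc, map_mul (MonoidAlgebra.of ℤ G) e, dl, sub_mul, one_mul]
    rw [h3, map_sub, h1, h2, sub_self, if_neg (by omega)]

/-- `ℤ[F]` is a subring: words of `F` are combinations of elements of `F`. -/
lemma wd_mem_ZS {S : ℕ → Subgroup G} {F : Subgroup G} (l : List (ℕ × G)) (hl : OK S F l) :
    wd l ∈ ZS F := by
  induction l with
  | nil => rw [wd_nil]; exact AddSubgroup.subset_closure ⟨1, F.one_mem, by rw [map_one]⟩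
  | cons q l ih =>
    rw [wd_cons]
    have h1 := ih (fun q hq => hl q (List.mem_cons_of_mem _ hq))
    have h2 : (hl q (List.mem_cons_self)).1 = (hl q (List.mem_cons_self)).1 := rfl
    have hq := (hl q (List.mem_cons_self)).1
    rw [dl, sub_mul, one_mul]
    refine AddSubgroup.sub_mem _ ?_ h1
    refine closure_mul_mem (S := {a | a = MonoidAlgebra.of ℤ G q.2})
      (T := {a | ∃ x ∈ F, a = MonoidAlgebra.of ℤ G x}) ?_
      (AddSubgroup.subset_closure rfl) h1
    rintro _ rfl _ ⟨x, hx, rfl⟩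
    rw [← map_mul]
    exact AddSubgroup.subset_closure ⟨_, F.mul_mem hq hx, rfl⟩

lemma ext_pow_ZS {F : Subgroup G} {p : ℕ} {e : G} {f f' : G → T}
    (hf : ∀ a y, a < p → y ∈ F → f' (e ^ a * y) = f y) {s : ℕ} (h : s < p)
    {β : MonoidAlgebra ℤ G} (hβ : β ∈ ZS F) : ext f' (dl e ^ s * β) =
      if s = 0 then ext f β else 0 := by
  unfold ZS at hβ
  induction hβ using AddSubgroup.closure_induction with
  | mem a ha =>
    obtain ⟨y, hy, rfl⟩ := ha
    have := ext_pow hf s 0 (by omega) hy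
    rw [pow_zero, one_mul] at this
    rw [this, ext_of]
  | zero => rw [mul_zero, map_zero, map_zero, ite_self]
  | add x y _ _ hx hy =>
    rw [mul_add, map_add, hx, hy, map_add]
    split_ifs <;> simp
  | neg x _ hx =>
    rw [mul_neg, map_neg, hx, map_neg]
    split_ifs <;> simp

/-- reduction of `(e - 1)^p`. -/
lemma dl_pow_p {p : ℕ} (hp : 0 < p) (e : G) : (dl e ^ p : MonoidAlgebra ℤ G) =
    dl (e ^ p) - ∑ i ∈ Finset.Ico 1 p, (p.choose i) • dl e ^ i := by
  have h1 : MonoidAlgebra.of ℤ G (e ^ p) = ∑ i ∈ Finset.range (p + 1),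
      (p.choose i) • dl e ^ i := by
    rw [map_pow, of_eq, (Commute.one_right (dl e)).add_pow]
    refine Finset.sum_congr rfl (fun i _ => ?_)
    rw [one_pow, mul_one, ← Nat.cast_comm, ← nsmul_eq_mul]
  have h2 : Finset.range (p + 1) = insert 0 (insert p (Finset.Ico 1 p)) := by
    ext i
    simp only [Finset.mem_range, Finset.mem_insert, Finset.mem_Ico]
    omega
  rw [h2, Finset.sum_insert, Finset.sum_insert] at h1
  · rw [Nat.choose_zero_right, one_smul, pow_zero, Nat.choose_self, one_smul] at h1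
    have h3 : (dl (e ^ p) : MonoidAlgebra ℤ G) = MonoidAlgebra.of ℤ G (e ^ p) - 1 := rfl
    rw [h3, h1]
    abel
  · simp
  · simp
    omega

/-- ONE-STEP LEMMA. -/
theorem one_step {p : ℕ} (hp : p.Prime) {S : ℕ → Subgroup G} {F E : Subgroup G} {e : G} {w : ℕ}
    {Θ : ℕ → ℕ → ℕ} {R : ℕ} {f f' : G → T} (hf1 : f 1 = 0)
    (hf : ∀ a y, a < p → y ∈ F → f' (e ^ a * y) = f y)
    (h1 : ∀ v y, y ∈ F → y ∈ S v → y⁻¹ * e⁻¹ * y * e ∈ F ∧ y⁻¹ * e⁻¹ * y * e ∈ S (v + w))
    (h2 : e ^ p ∈ F ∧ e ^ p ∈ S (p * w))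
    (h3 : ∀ v x, x ∈ E → x ∈ S v → ∃ (k : ℕ) (y : G), y ∈ F ∧ y ∈ S v ∧ x = e ^ k * y ∧
      (k = 0 ∨ v ≤ w))
    (hmono : ∀ b u v, u ≤ v → Θ b u ≤ Θ b v)
    (hΘ : ∀ b i v, 1 ≤ i → i < p → Θ b (p * w + v) ≤ Θ (b + 1) (i * w + v))
    (hK : Kill p Θ R S F f) : Kill p Θ R S E f' := by
  have key : ∀ (s b : ℕ) (l : List (ℕ × G)), OK S F l → R ≤ Θ b (s * w + wt l) →
      p ^ b • ext f' (dl e ^ s * wd l) = 0 := by
    intro s
    induction s using Nat.strong_induction_on with
    | _ s ih =>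
      intro b l hl hR
      rcases lt_or_ge s p with hs | hs
      · rw [ext_pow_ZS hf hs (wd_mem_ZS l hl)]
        split_ifs with h0
        · subst h0
          rcases eq_or_ne l [] with rfl | hne
          · rw [wd_nil, ext_one, hf1, smul_zero]
          · exact hK b l hne hl (by simpa using hR)
        · rw [smul_zero]
      · obtain ⟨t, rfl⟩ := Nat.exists_eq_add_of_le hs
        have e1 : dl e ^ (p + t) * wd l = dl e ^ t * wd ((p * w, e ^ p) :: l) -
            ∑ i ∈ Finset.Ico 1 p, (p.choose i) • (dl e ^ (t + i) * wd l) := by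
          rw [wd_cons, add_comm p t, pow_add, mul_assoc, dl_pow_p hp.pos, sub_mul, mul_sub]
          congr 1
          rw [Finset.sum_mul, Finset.mul_sum]
          refine Finset.sum_congr rfl (fun i _ => ?_)
          rw [smul_mul_assoc, mul_smul_comm, pow_add, mul_assoc]
        rw [e1, map_sub, smul_sub, map_sum, Finset.smul_sum]
        rw [ih t (by have := hp.pos; omega) b _ ?_ ?_, zero_sub, neg_eq_zero]
        · refine Finset.sum_eq_zero (fun i hi => ?_)
          rw [Finset.mem_Ico] at hi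
          obtain ⟨c, hc⟩ := hp.dvd_choose_self (by omega) hi.2
          rw [map_nsmul, hc, smul_smul, show p ^ b * (p * c) = c * p ^ (b + 1) by ring,
            ← smul_smul, ih (t + i) (by omega) (b + 1) l hl ?_, smul_zero]
          refine hR.trans ?_
          have := hΘ b i (t * w + wt l) hi.1 hi.2
          rw [show (p + t) * w + wt l = p * w + (t * w + wt l) by ring,
            show (t + i) * w + wt l = i * w + (t * w + wt l) by ring]
          exact this
        · intro q hq
          rcases List.mem_cons.1 hq with rfl | hq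
          · exact h2
          · exact hl q hq
        · rw [wt_cons]
          simp only
          rw [show t * w + (p * w + wt l) = (p + t) * w + wt l by ring]
          exact hR
  intro b l _ hl hR
  have hm := word_mem_V h1 h3 l hl
  have hfin : ∀ a ∈ V S F e w (wt l), p ^ b • ext f' a = 0 := by
    intro a ha
    unfold V at ha
    induction ha using AddSubgroup.closure_induction with
    | mem a ha =>
      obtain ⟨s, m, hm1, hm2, rfl⟩ := ha
      exact key s b m hm1 (hR.trans (hmono _ _ _ hm2))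
    | zero => rw [map_zero, smul_zero]
    | add x y _ _ hx hy => rw [map_add, smul_add, hx, hy, add_zero]
    | neg x _ hx => rw [map_neg, smul_neg, hx, neg_zero]
  exact hfin _ hm

end Pool.Agent.Helper46.RK.Digit
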