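import Mathlib

/-!
MP_aa96c4_al, project RK, part (D): power structure.

`P` is a normal subgroup of a finite `p`-group `G` such that `⁅R, P⁆ ≤ R ^ (p ^ j)` for every normal
subgroup `R ≤ P` of `G`, with `j ≥ 2`.
-/

namespace Pool.Agent.Helper46.RK

open Subgroup
open scoped commutatorElement

variable {G : Type*} [Group G]

/-- the subgroup generated by the `n`-th powers of the elements of `R`. -/
def Pw (n : ℕ) (R : Subgroup G) : Subgroup G := Subgroup.closure ((fun x : G => x ^ n) '' (R : Set G))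

theorem pow_mem_Pw (n : ℕ) {R : Subgroup G} {x : G} (hx : x ∈ R) : x ^ n ∈ Pw n R :=
  Subgroup.subset_closure ⟨x, hx, rfl⟩

theorem Pw_le_iff {n : ℕ} {R N : Subgroup G} : Pw n R ≤ N ↔ ∀ x ∈ R, x ^ n ∈ N := by
  unfold Pw
  rw [Subgroup.closure_le]
  constructor
  · exact fun h x hx => h ⟨x, hx, rfl⟩
  · rintro h _ ⟨x, hx, rfl⟩
    exact h x hx

theorem Pw_le (n : ℕ) (R : Subgroup G) : Pw n R ≤ R := Pw_le_iff.mpr fun _ hx => pow_mem hx n

theorem Pw_mono (n : ℕ) {R R' : Subgroup G} (h : R ≤ R') : Pw n R ≤ Pw n R' :=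
  Pw_le_iff.mpr fun _ hx => pow_mem_Pw n (h hx)

theorem Pw_one (R : Subgroup G) : Pw 1 R = R :=
  le_antisymm (Pw_le 1 R) fun x hx => by
    have := pow_mem_Pw 1 hx
    rwa [pow_one] at this

theorem Pw_mul_le (m n : ℕ) (R : Subgroup G) : Pw (m * n) R ≤ Pw n (Pw m R) :=
  Pw_le_iff.mpr fun x hx => by
    rw [pow_mul]
    exact pow_mem_Pw n (pow_mem_Pw m hx)

theorem Pw_dvd {m n : ℕ} (h : m ∣ n) (R : Subgroup G) : Pw n R ≤ Pw m R := by
  obtain ⟨k, rfl⟩ := h
  exact (Pw_mul_le m k R).trans (Pw_le k _)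

theorem Pw_map {G' : Type*} [Group G'] (n : ℕ) (R : Subgroup G) (f : G →* G') :
    (Pw n R).map f = Pw n (R.map f) := by
  unfold Pw
  rw [MonoidHom.map_closure]
  congr 1
  ext y
  constructor
  · rintro ⟨_, ⟨x, hx, rfl⟩, rfl⟩
    exact ⟨f x, ⟨x, hx, rfl⟩, by simp⟩
  · rintro ⟨_, ⟨x, hx, rfl⟩, rfl⟩
    exact ⟨x ^ n, ⟨x, hx, rfl⟩, by simp⟩

/-- the closure of a conjugation invariant set is normal. -/
theorem closure_normal {S : Set G} (hS : ∀ s ∈ S, ∀ g : G, g * s * g⁻¹ ∈ S) :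
    (Subgroup.closure S).Normal := by
  constructor
  intro n hn g
  induction hn using Subgroup.closure_induction with
  | mem x hx => exact Subgroup.subset_closure (hS x hx g)
  | one => simp
  | mul x y _ _ h1 h2 =>
    have : g * (x * y) * g⁻¹ = (g * x * g⁻¹) * (g * y * g⁻¹) := by group
    rw [this]
    exact mul_mem h1 h2
  | inv x _ h =>
    have : g * x⁻¹ * g⁻¹ = (g * x * g⁻¹)⁻¹ := by group
    rw [this]
    exact inv_mem h

theorem pow_image_inv {n : ℕ} {S : Set G} (hS : ∀ s ∈ S, ∀ g : G, g * s * g⁻¹ ∈ S) :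
    ∀ s ∈ (fun x : G => x ^ n) '' S, ∀ g : G, g * s * g⁻¹ ∈ (fun x : G => x ^ n) '' S := by
  rintro _ ⟨x, hx, rfl⟩ g
  exact ⟨g * x * g⁻¹, hS x hx g, by simp [conj_pow]⟩

theorem Pw_normal (n : ℕ) {R : Subgroup G} (hR : R.Normal) : (Pw n R).Normal :=
  closure_normal (pow_image_inv fun s hs g => hR.conj_mem s hs g)

/-- Nakayama / Frattini for finite `p`-groups. -/
theorem nak {p : ℕ} [hp : Fact p.Prime] [Finite G] (hG : IsPGroup p G) {K R : Subgroup G}
    (hK : K ≤ R) (h : R ≤ K ⊔ (⁅R, R⁆ ⊔ Pw p R)) : R ≤ K := by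
  classical
  by_contra hcon
  have hKR : K < R := lt_of_le_of_ne hK (fun e => hcon e.ge)
  set K' : Subgroup R := K.subgroupOf R with hK'
  obtain ⟨n, hn⟩ := (IsPGroup.iff_card (p := p) (G := R)).mp (hG.to_subgroup R)
  obtain ⟨m, hm⟩ := (IsPGroup.iff_card (p := p) (G := K')).mp ((hG.to_subgroup R).to_subgroup K')
  have hKtop : K' ≠ ⊤ := by
    rw [hK', Ne, Subgroup.subgroupOf_eq_top]
    exact hcon
  have hlt : m < n := by
    have h1 : Nat.card K' < Nat.card R := by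
      refine lt_of_le_of_ne (Subgroup.card_le_card_group K') ?_
      intro e
      exact hKtop (Subgroup.eq_top_of_card_eq K' e)
    rw [hn, hm] at h1
    exact (Nat.pow_lt_pow_iff_right hp.out.one_lt).mp h1
  obtain ⟨M, hMc, hKM⟩ := Sylow.exists_subgroup_card_pow_prime_le (G := R) p
    (n := m) (m := n - 1) (by rw [hn]; exact pow_dvd_pow p (by omega)) K' hm (by omega)
  have hMi : M.index = p := by
    have h1 := Subgroup.card_mul_index M
    rw [hMc, hn] at h1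
    have h2 : p ^ n = p ^ (n - 1) * p := by
      rw [← pow_succ]
      congr 1
      omega
    rw [h2] at h1
    exact Nat.eq_of_mul_eq_mul_left (pow_pos hp.out.pos _) h1
  have hMn : M.Normal := by
    apply Subgroup.normal_of_index_eq_minFac_card
    rw [hMi, hn, hp.out.pow_minFac (by omega)]
  have hcard : Nat.card (R ⧸ M) = p := hMi
  have hpow : ∀ x : R, x ^ p ∈ M := by
    intro x
    rw [← QuotientGroup.eq_one_iff, QuotientGroup.mk_pow, ← hcard]
    exact pow_card_eq_one'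
  have hcomm : ∀ x y : R, ⁅x, y⁆ ∈ M := by
    intro x y
    have hcyc : IsCyclic (R ⧸ M) := isCyclic_of_prime_card hcard
    have h2 : (x : R ⧸ M) * (y : R ⧸ M) = (y : R ⧸ M) * (x : R ⧸ M) := by
      let _ := IsCyclic.commGroup (α := R ⧸ M)
      exact mul_comm _ _
    have h3 : ⁅(QuotientGroup.mk' M) x, (QuotientGroup.mk' M) y⁆ = 1 := by
      rw [commutatorElement_eq_one_iff_mul_comm]
      exact h2
    rw [← map_commutatorElement] at h3
    exact (QuotientGroup.eq_one_iff _).mp h3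
  have hle : R ≤ M.map R.subtype := by
    refine h.trans (sup_le ?_ (sup_le ?_ ?_))
    · intro x hx
      exact ⟨⟨x, hK hx⟩, hKM (by rw [hK']; exact hx), rfl⟩
    · rw [Subgroup.commutator_le]
      intro x hx y hy
      exact ⟨⁅⟨x, hx⟩, ⟨y, hy⟩⁆, hcomm _ _, rfl⟩
    · rw [Pw_le_iff]
      intro x hx
      exact ⟨⟨x, hx⟩ ^ p, hpow _, rfl⟩
  have hMtop : M = ⊤ := by
    rw [eq_top_iff]
    intro x _
    obtain ⟨y, hy, hyx⟩ := hle x.2
    have : y = x := R.subtype_injective hyx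
    rwa [← this]
  rw [hMtop, Subgroup.index_top] at hMi
  exact hp.out.one_lt.ne hMi

/-- `x` and `y` commute modulo `B`: powers of the product. -/
theorem pow_mul_mod {B : Subgroup G} [B.Normal] {x y : G} (h : ⁅x, y⁆ ∈ B) (n : ℕ) :
    ((x * y) ^ n)⁻¹ * (x ^ n * y ^ n) ∈ B := by
  have h1 : Commute (QuotientGroup.mk' B x) (QuotientGroup.mk' B y) := by
    have h2 : QuotientGroup.mk' B ⁅x, y⁆ = 1 := (QuotientGroup.eq_one_iff _).mpr h
    rw [map_commutatorElement, commutatorElement_eq_one_iff_mul_comm] at h2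
    exact h2
  have h3 : QuotientGroup.mk' B (((x * y) ^ n)⁻¹ * (x ^ n * y ^ n)) = 1 := by
    rw [map_mul, map_inv, map_pow, map_mul, map_mul, map_pow, map_pow, h1.mul_pow]
    group
  exact (QuotientGroup.eq_one_iff _).mp h3

/-- the hypothesis: `P` is normal and `⁅R, P⁆ ≤ R ^ (p ^ j)` for all normal `R ≤ P`. -/
structure Emb (p j : ℕ) (P : Subgroup G) : Prop where
  normal : P.Normal
  star : ∀ R : Subgroup G, R.Normal → R ≤ P → ⁅R, P⁆ ≤ Pw (p ^ j) R

theorem Emb.quot {p j : ℕ} {P : Subgroup G} (hP : Emb p j P) (N : Subgroup G) [N.Normal] :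
    Emb p j (P.map (QuotientGroup.mk' N)) := by
  have hPn := hP.normal
  refine ⟨hPn.map _ (QuotientGroup.mk'_surjective N), fun R' hR' hle => ?_⟩
  set R : Subgroup G := R'.comap (QuotientGroup.mk' N) ⊓ P with hR
  have hRn : R.Normal := by
    have h1 : (R'.comap (QuotientGroup.mk' N)).Normal := hR'.comap _
    rw [hR]
    infer_instance
  have hRm : R.map (QuotientGroup.mk' N) = R' := by
    apply le_antisymm
    · rintro _ ⟨x, hx, rfl⟩
      exact hx.1
    · intro y hy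
      obtain ⟨x, hx, rfl⟩ := hle hy
      exact ⟨x, ⟨hy, hx⟩, rfl⟩
  have h1 := Subgroup.map_mono (f := QuotientGroup.mk' N) (hP.star R hRn inf_le_right)
  rwa [Subgroup.map_commutator, Pw_map, hRm] at h1

section Main

variable {p j : ℕ} [hp : Fact p.Prime] [Finite G] {P : Subgroup G}

/-- (D1) for `e = 1`. -/
theorem Emb.one (hG : IsPGroup p G) (hP : Emb p j P) (hj : 2 ≤ j) {S : Set G}
    (hSP : S ⊆ P) (hS : ∀ s ∈ S, ∀ g : G, g * s * g⁻¹ ∈ S) :
    Pw p (Subgroup.closure S) = Subgroup.closure ((fun x : G => x ^ p) '' S) := by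
  set R := Subgroup.closure S with hR
  set T := Subgroup.closure ((fun x : G => x ^ p) '' S) with hT
  have hRP : R ≤ P := by
    rw [hR, Subgroup.closure_le]
    exact hSP
  have hRn : R.Normal := closure_normal hS
  have hTn : T.Normal := closure_normal (pow_image_inv hS)
  have hTM : T ≤ Pw p R := by
    rw [hT, Subgroup.closure_le]
    rintro _ ⟨x, hx, rfl⟩
    exact pow_mem_Pw p (Subgroup.subset_closure hx)
  refine le_antisymm (nak hG hTM ?_) hTM
  set M := Pw p R with hM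
  have hMn : M.Normal := Pw_normal p hRn
  have hB : (T ⊔ Pw p M).Normal := by
    have := Pw_normal p hMn
    infer_instance
  have hcomm : ⁅R, R⁆ ≤ T ⊔ Pw p M := by
    refine le_trans ?_ le_sup_right
    refine (Subgroup.commutator_mono le_rfl hRP).trans ((hP.star R hRn hRP).trans ?_)
    refine (Pw_dvd (pow_dvd_pow p hj) R).trans ?_
    rw [pow_two]
    exact Pw_mul_le p p R
  have key : ∀ r ∈ R, r ^ p ∈ T ⊔ Pw p M := by
    intro r hr
    induction hr using Subgroup.closure_induction with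
    | mem x hx => exact (le_sup_left : T ≤ _) (Subgroup.subset_closure ⟨x, hx, rfl⟩)
    | one => simp
    | mul x y hx hy h1 h2 =>
      have h3 := pow_mul_mod (hcomm (Subgroup.commutator_mem_commutator hx hy)) p
      have h4 : (x * y) ^ p = (x ^ p * y ^ p) * (((x * y) ^ p)⁻¹ * (x ^ p * y ^ p))⁻¹ := by
        group
      rw [h4]
      exact mul_mem (mul_mem h1 h2) (inv_mem h3)
    | inv x _ h =>
      rw [inv_pow]
      exact inv_mem h
  have h5 : M ≤ T ⊔ Pw p M := Pw_le_iff.mpr key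
  exact h5.trans (sup_le_sup_left le_sup_right _)

/-- (D1): if `S ⊆ P` is invariant under conjugation then the `p ^ e`-th powers of the elements of
`⟨S⟩` are generated by the `p ^ e`-th powers of the elements of `S`. -/
theorem Emb.gen (hG : IsPGroup p G) (hP : Emb p j P) (hj : 2 ≤ j) (e : ℕ) {S : Set G}
    (hSP : S ⊆ P) (hS : ∀ s ∈ S, ∀ g : G, g * s * g⁻¹ ∈ S) :
    Pw (p ^ e) (Subgroup.closure S) = Subgroup.closure ((fun x : G => x ^ (p ^ e)) '' S) := by
  induction e generalizing S with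
  | zero =>
    rw [pow_zero, Pw_one]
    congr 1
    ext x
    simp
  | succ e ih =>
    apply le_antisymm
    · rw [pow_succ']
      refine (Pw_mul_le p (p ^ e) _).trans ?_
      rw [hP.one hG hj hSP hS, ih ?_ (pow_image_inv hS)]
      · rw [Set.image_image]
        simp only [← pow_mul]
        exact le_rfl
      · rintro _ ⟨x, hx, rfl⟩
        exact pow_mem (hSP hx) p
    · rw [Subgroup.closure_le]
      rintro _ ⟨x, hx, rfl⟩
      exact pow_mem_Pw _ (Subgroup.subset_closure hx)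

/-- `(R ^ (p ^ a)) ^ (p ^ b) = R ^ (p ^ (a + b))`. -/
theorem Emb.Pw_Pw (hG : IsPGroup p G) (hP : Emb p j P) (hj : 2 ≤ j) (a b : ℕ) {R : Subgroup G}
    (hR : R.Normal) (hRP : R ≤ P) : Pw (p ^ b) (Pw (p ^ a) R) = Pw (p ^ (a + b)) R := by
  have h1 : Pw (p ^ b) (Pw (p ^ a) R) = Subgroup.closure
      ((fun x : G => x ^ (p ^ b)) '' ((fun x : G => x ^ (p ^ a)) '' (R : Set G))) := by
    refine hP.gen hG hj b ?_ (pow_image_inv fun s hs g => hR.conj_mem s hs g)
    rintro _ ⟨x, hx, rfl⟩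
    exact pow_mem (hRP hx) _
  rw [h1, Set.image_image]
  simp only [← pow_mul, ← pow_add]
  rfl

/-- (D2): closure under products of the elements of `P` with `u ^ (p ^ e) = 1`. -/
theorem Emb.mul_pow_eq_one (hG : IsPGroup p G) (hP : Emb p j P) (hj : 2 ≤ j) (e : ℕ) {u v : G}
    (hu : u ∈ P) (hv : v ∈ P) (hu1 : u ^ (p ^ e) = 1) (hv1 : v ^ (p ^ e) = 1) :
    (u * v) ^ (p ^ e) = 1 := by
  have hPn := hP.normal
  let S : Set G := {x | x ∈ P ∧ x ^ (p ^ e) = 1}
  have hS : ∀ s ∈ S, ∀ g : G, g * s * g⁻¹ ∈ S := by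
    rintro s ⟨h1, h2⟩ g
    exact ⟨hPn.conj_mem s h1 g, by rw [conj_pow, h2]; simp⟩
  have h := hP.gen hG hj e (S := S) (fun x hx => hx.1) hS
  have h1 : Subgroup.closure ((fun x : G => x ^ (p ^ e)) '' S) = ⊥ := by
    rw [eq_bot_iff, Subgroup.closure_le]
    rintro _ ⟨x, hx, rfl⟩
    exact hx.2
  rw [h1] at h
  have h2 : (u * v) ^ (p ^ e) ∈ Pw (p ^ e) (Subgroup.closure S) :=
    pow_mem_Pw _ (mul_mem (Subgroup.subset_closure ⟨hu, hu1⟩) (Subgroup.subset_closure ⟨hv, hv1⟩))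
  rw [h] at h2
  exact h2

/-- (D2) the subgroup `Ω_e(P)`. -/
def Emb.Om (hG : IsPGroup p G) (hP : Emb p j P) (hj : 2 ≤ j) (e : ℕ) : Subgroup G where
  carrier := {x | x ∈ P ∧ x ^ (p ^ e) = 1}
  one_mem' := ⟨one_mem _, one_pow _⟩
  mul_mem' := fun ha hb => ⟨mul_mem ha.1 hb.1, hP.mul_pow_eq_one hG hj e ha.1 hb.1 ha.2 hb.2⟩
  inv_mem' := fun ha => ⟨inv_mem ha.1, by rw [inv_pow, ha.2, inv_one]⟩

theorem Emb.mem_Om (hG : IsPGroup p G) (hP : Emb p j P) (hj : 2 ≤ j) {e : ℕ} {x : G} :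
    x ∈ hP.Om hG hj e ↔ x ∈ P ∧ x ^ (p ^ e) = 1 := Iff.rfl

theorem Emb.Om_normal (hG : IsPGroup p G) (hP : Emb p j P) (hj : 2 ≤ j) (e : ℕ) :
    (hP.Om hG hj e).Normal :=
  ⟨fun s hs g => ⟨hP.normal.conj_mem s hs.1 g, by rw [conj_pow, hs.2]; simp⟩⟩

/-- (D4): `⁅Ω_e(P), P⁆ ≤ Ω_(e - j)(P)`. -/
theorem Emb.Om_comm (hG : IsPGroup p G) (hP : Emb p j P) (hj : 2 ≤ j) (e : ℕ) :
    ⁅hP.Om hG hj e, P⁆ ≤ hP.Om hG hj (e - j) := by
  refine (hP.star _ (hP.Om_normal hG hj e) fun x hx => hx.1).trans ?_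
  rw [Pw_le_iff]
  rintro x ⟨h1, h2⟩
  refine ⟨pow_mem h1 _, ?_⟩
  rw [← pow_mul, ← pow_add]
  have h3 : p ^ e ∣ p ^ (j + (e - j)) := pow_dvd_pow p (by omega)
  obtain ⟨k, hk⟩ := h3
  rw [hk, pow_mul, h2, one_pow]

/-- (D3) for `e = 1`. -/
theorem Emb.root_one (hG : IsPGroup p G) (hP : Emb p j P) (hj : 2 ≤ j) {u v : G}
    (hu : u ∈ P) (hv : v ∈ P) (h : u ^ p = v ^ p) : (u * v⁻¹) ^ p = 1 := by
  have hPn := hP.normal
  set w := u * v⁻¹ with hw
  have hwP : w ∈ P := mul_mem hu (inv_mem hv)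
  let S : Set G := {x | ∃ g : G, x = g * w * g⁻¹}
  have hS : ∀ s ∈ S, ∀ g : G, g * s * g⁻¹ ∈ S := by
    rintro _ ⟨a, rfl⟩ g
    exact ⟨g * a, by group⟩
  have hSP : S ⊆ P := by
    rintro _ ⟨a, rfl⟩
    exact hPn.conj_mem w hwP a
  set R := Subgroup.closure S with hR
  have hRn : R.Normal := closure_normal hS
  have hRP : R ≤ P := by
    rw [hR, Subgroup.closure_le]
    exact hSP
  have hwR : w ∈ R := Subgroup.subset_closure ⟨1, by group⟩
  have hone := hP.one hG hj hSP hS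
  rw [← hR] at hone
  set M := Pw p R with hM
  have hMn : M.Normal := Pw_normal p hRn
  have hM2 : (Pw p M).Normal := Pw_normal p hMn
  have hcw : ⁅w, v⁆ ∈ Pw p M := by
    have h1 : ⁅w, v⁆ ∈ ⁅R, P⁆ := Subgroup.commutator_mem_commutator hwR hv
    have h2 := (hP.star R hRn hRP).trans (Pw_dvd (pow_dvd_pow p hj) R)
    rw [pow_two] at h2
    exact (h2.trans (Pw_mul_le p p R)) h1
  have hwp : w ^ p ∈ Pw p M := by
    have h1 := pow_mul_mod hcw p
    have h2 : w * v = u := by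
      rw [hw]
      group
    rw [h2, h] at h1
    have h3 := hM2.conj_mem _ h1 (v ^ p)
    have h4 : v ^ p * ((v ^ p)⁻¹ * (w ^ p * v ^ p)) * (v ^ p)⁻¹ = w ^ p := by group
    rwa [h4] at h3
  have hle : M ≤ Pw p M := by
    refine hone.le.trans ?_
    rw [Subgroup.closure_le]
    rintro _ ⟨_, ⟨g, rfl⟩, rfl⟩
    change (g * w * g⁻¹) ^ p ∈ Pw p M
    rw [conj_pow]
    exact hM2.conj_mem _ hwp g
  have hbot : M ≤ ⊥ := by
    refine nak hG bot_le (hle.trans ?_)
    exact le_sup_right.trans le_sup_right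
  have := hbot (pow_mem_Pw p hwR)
  exact (Subgroup.mem_bot).mp this

end Main

/-- (D3): if `u, v ∈ P` and `u ^ (p ^ e) = v ^ (p ^ e)` then `(u v⁻¹) ^ (p ^ e) = 1`. -/
theorem Emb.root {p j : ℕ} [hp : Fact p.Prime] (hj : 2 ≤ j) (e : ℕ) :
    ∀ {G : Type*} [Group G] [Finite G] {P : Subgroup G} (_ : IsPGroup p G) (_ : Emb p j P)
      {u v : G} (_ : u ∈ P) (_ : v ∈ P) (_ : u ^ (p ^ e) = v ^ (p ^ e)),
      (u * v⁻¹) ^ (p ^ e) = 1 := by
  induction e with
  | zero =>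
    intro G _ _ P hG hP u v hu hv h
    rw [pow_zero, pow_one, pow_one] at h
    rw [h]
    simp
  | succ e ih =>
    intro G _ _ P hG hP u v hu hv h
    have h1 : (u ^ (p ^ e)) ^ p = (v ^ (p ^ e)) ^ p := by
      rw [← pow_mul, ← pow_mul, ← pow_succ]
      exact h
    have h2 := hP.root_one hG hj (pow_mem hu _) (pow_mem hv _) h1
    set N := hP.Om hG hj 1 with hN
    have hNn : N.Normal := hP.Om_normal hG hj 1
    have h3 : u ^ (p ^ e) * (v ^ (p ^ e))⁻¹ ∈ N := by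
      rw [hN, Emb.mem_Om]
      exact ⟨mul_mem (pow_mem hu _) (inv_mem (pow_mem hv _)), by rw [pow_one]; exact h2⟩
    have h4 : (QuotientGroup.mk' N u) ^ (p ^ e) = (QuotientGroup.mk' N v) ^ (p ^ e) := by
      have h5 : QuotientGroup.mk' N (u ^ (p ^ e) * (v ^ (p ^ e))⁻¹) = 1 :=
        (QuotientGroup.eq_one_iff _).mpr h3
      rw [map_mul, map_inv, map_pow, map_pow] at h5
      exact mul_inv_eq_one.mp h5
    have h6 := ih (hG.to_quotient N) (hP.quot N) (Subgroup.mem_map_of_mem _ hu)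
      (Subgroup.mem_map_of_mem _ hv) h4
    have h7 : (u * v⁻¹) ^ (p ^ e) ∈ N := by
      have h8 : QuotientGroup.mk' N ((u * v⁻¹) ^ (p ^ e)) = 1 := by
        rw [map_pow, map_mul, map_inv]
        exact h6
      exact (QuotientGroup.eq_one_iff _).mp h8
    have h9 := h7.2
    rw [pow_one, ← pow_mul, ← pow_succ] at h9
    exact h9

end Pool.Agent.Helper46.RK
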